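import Pool.Agent.D0H75.LS.Fin
import Pool.Agent.Y37.GF.LI

/-!
# Linear independence of the monomials in the Legendre functions at different multiples of the variable
-/

set_option autoImplicit false

open Filter Topology Set

namespace Pool.Agent.D0H75.LS

open Pool.Agent.Y113 Pool.Agent.Y37.GF

variable {α β : ℝ}

theorem z1_zero : z1 0 = 1 := by
  unfold z1
  rw [Nat.cast_zero, zero_add, div_one]

/-- one argument, with coefficients analytic on the closed interval -/
theorem single' (hD : Dat α β) {g Δ : ℕ} (hg : 0 < g) (c : Ex Δ → ℝ → ℝ)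
    (hc : ∀ e, ∀ z ∈ Icc 0 (1 / (g : ℝ)), AnalyticAt ℝ (c e) z)
    (h : ∀ᶠ z in 𝓝[>] (0 : ℝ), ∑ e, c e z * mv (yt α β 0 (g * z)) e = 0) :
    ∀ z ∈ Ioo 0 (1 / (g : ℝ)), ∀ e, c e z = 0 := by
  have hg0 : (0 : ℝ) < g := by exact_mod_cast hg
  have h1 : ∀ e, ∀ s ∈ Icc 0 (z1 0), AnalyticAt ℝ (fun s => c e (s / g)) s := by
    intro e s hs
    rw [z1_zero] at hs
    refine (hc e (s / g) ⟨div_nonneg hs.1 hg0.le, ?_⟩).comp_of_eq
      (analyticAt_id.div_const) rfl
    exact div_le_div_of_nonneg_right hs.2 hg0.le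
  have ht : Tendsto (fun s : ℝ => s / g) (𝓝[>] (0 : ℝ)) (𝓝[>] (0 : ℝ)) := by
    refine tendsto_nhdsWithin_iff.2 ⟨?_, ?_⟩
    · have h2 : Tendsto (fun s : ℝ => s / g) (𝓝 (0 : ℝ)) (𝓝 (0 / (g : ℝ))) :=
        (continuous_id.div_const (g : ℝ)).tendsto 0
      rw [zero_div] at h2
      exact h2.mono_left nhdsWithin_le_nhds
    · filter_upwards [self_mem_nhdsWithin] with s hs
      exact div_pos hs hg0
  have h2 : ∀ᶠ s in 𝓝[>] (0 : ℝ), ∑ e, c e (s / g) * mv (yt α β 0 s) e = 0 := by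
    filter_upwards [ht.eventually h] with s hs
    have h3 : (g : ℝ) * (s / g) = s := by field_simp
    rw [h3] at hs
    exact hs
  have h3 := single hD (g := 0) (fun e s => c e (s / g)) h1 h2
  intro z hz e
  have h4 := h3 (g * z) (by
    rw [z1_zero]
    refine ⟨mul_pos hg0 hz.1, ?_⟩
    have := hz.2
    rw [lt_div_iff₀ hg0] at this
    linarith) e
  have h5 : (g : ℝ) * z / g = z := by field_simp
  simp only [h5] at h4
  exact h4

/-- all arguments -/
theorem multi' (hD : Dat α β) (Δ : ℕ) (n : ℕ) : ∀ (ι : Type) [Fintype ι] [DecidableEq ι] (g : ι → ℕ)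
    (Q : (ι → Ex Δ) → Polynomial ℝ), Fintype.card ι = n → Function.Injective g → (∀ l, 0 < g l) →
    (∀ᶠ z in 𝓝[>] (0 : ℝ), ∑ b, (Q b).eval z * ∏ l, mv (yt α β 0 (g l * z)) (b l) = 0) →
    ∀ b, Q b = 0 := by
  induction n with
  | zero =>
    intro ι _ _ g Q hcard _ _ h b
    have : IsEmpty ι := Fintype.card_eq_zero_iff.1 hcard
    apply poly_zero'
    filter_upwards [h] with z hz
    rw [Fintype.sum_eq_single b (fun b' hb' => absurd (Subsingleton.elim b' b) hb')] at hz
    simpa using hz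
  | succ n ih =>
    intro ι _ _ g Q hcard hg hgp h b
    have hne : (Finset.univ : Finset ι).Nonempty := by
      rw [← Finset.card_pos, Finset.card_univ, hcard]; omega
    obtain ⟨l₁, -, hl₁⟩ := Finset.exists_max_image Finset.univ g hne
    let e := Equiv.funSplitAt l₁ (Ex Δ)
    -- the coefficients
    let c : Ex Δ → ℝ → ℝ := fun x z => ∑ b' : {j // j ≠ l₁} → Ex Δ,
      (Q (e.symm (x, b'))).eval z * ∏ l : {j // j ≠ l₁}, mv (yt α β 0 (g l * z)) (b' l)
    have hg1 : (0 : ℝ) < g l₁ := by exact_mod_cast hgp l₁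
    have hlt : ∀ l : {j // j ≠ l₁}, (g l : ℝ) < g l₁ := by
      intro l
      have h1 : g l < g l₁ := lt_of_le_of_ne (hl₁ l (Finset.mem_univ _)) fun h => l.2 (hg h)
      exact_mod_cast h1
    have hcan : ∀ x, ∀ z ∈ Icc 0 (1 / (g l₁ : ℝ)), AnalyticAt ℝ (c x) z := by
      intro x z hz
      refine Finset.analyticAt_fun_sum _ fun b' _ => ?_
      refine AnalyticAt.mul ?_ ?_
      · exact (AnalyticOnNhd.eval_polynomial (𝕜 := ℝ) _) z (Set.mem_univ _)
      · refine Finset.analyticAt_fun_prod _ fun l _ => mv_an _ fun i => ?_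
        have hl0 : (0 : ℝ) ≤ g l := Nat.cast_nonneg _
        have h1 : (g l : ℝ) * z < z1 0 := by
          rw [z1_zero]
          have h2 : (g l₁ : ℝ) * z ≤ 1 := by
            have := hz.2
            rw [le_div_iff₀ hg1] at this
            linarith
          rcases hz.1.eq_or_lt with h3 | h3
          · rw [← h3, mul_zero]; norm_num
          · have := mul_lt_mul_of_pos_right (hlt l) h3
            linarith
        exact (an_yt' hD (mul_nonneg hl0 hz.1) h1 i).comp_of_eq
          (analyticAt_const.mul analyticAt_id) rfl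
    have hsum : ∀ z, ∑ b, (Q b).eval z * ∏ l, mv (yt α β 0 (g l * z)) (b l)
        = ∑ x, c x z * mv (yt α β 0 (g l₁ * z)) x := by
      intro z
      rw [← e.symm.sum_comp, Fintype.sum_prod_type]
      refine Finset.sum_congr rfl fun x _ => ?_
      rw [Finset.sum_mul]
      refine Finset.sum_congr rfl fun b' _ => ?_
      rw [Fintype.prod_eq_mul_prod_subtype_ne _ l₁]
      have h1 : e.symm (x, b') l₁ = x := by simp [e, Equiv.funSplitAt, Equiv.piSplitAt]
      have h2 : ∀ l : {j // j ≠ l₁}, e.symm (x, b') l = b' l := by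
        intro l; simp [e, Equiv.funSplitAt, Equiv.piSplitAt, l.2]
      rw [h1]
      simp only [h2]
      ring
    have hz0 := single' hD (hgp l₁) c hcan (h.mono fun z hz => by rw [← hsum]; exact hz)
    have hI : Ioo 0 (1 / (g l₁ : ℝ)) ∈ 𝓝[>] (0 : ℝ) := Ioo_mem_nhdsGT (by positivity)
    have key : ∀ x, ∀ b', Q (e.symm (x, b')) = 0 := by
      intro x
      refine ih {j // j ≠ l₁} (fun l => g l) (fun b' => Q (e.symm (x, b'))) ?_ ?_ ?_ ?_
      · rw [Fintype.card_subtype_compl, hcard]; simp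
      · intro a b hab; exact Subtype.ext (hg hab)
      · exact fun l => hgp l
      · filter_upwards [hI] with z hz
        exact hz0 z hz x
    have := key (e b).1 (e b).2
    rwa [Prod.mk.eta, Equiv.symm_apply_apply] at this

theorem E_rs (g : ℕ) (f : PowerSeries ℚ) (z : ℝ) : E (rs g f) z = E f (g * z) := by
  unfold E
  refine tsum_congr fun m => ?_
  rw [coeff_rs, mul_pow]
  push_cast
  ring

theorem SR_rs {g : ℕ} {f : PowerSeries ℚ} {r : ℝ} (h : SR ((g : ℝ) * r) f) : SR r (rs g f) := by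
  unfold SR at h ⊢
  refine h.congr fun m => ?_
  rw [coeff_rs, mul_pow]
  push_cast
  rw [abs_mul, abs_of_nonneg (pow_nonneg (Nat.cast_nonneg g) m : (0 : ℝ) ≤ (g : ℝ) ^ m)]
  ring

theorem SR_fr {g : ℕ} (hg : 0 < g) (i : Fin 4) : SR (1 / (8 * (g : ℝ))) (fr g i) := by
  have hg0 : (0 : ℝ) < g := by exact_mod_cast hg
  refine SR_rs ?_
  have h1 := SR_four 0 i
  rw [Nat.cast_zero, zero_add] at h1
  have h2 : (g : ℝ) * (1 / (8 * (g : ℝ))) = 1 / 8 := by field_simp
  rw [h2]
  exact h1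

theorem SR_mn {Δ g : ℕ} (hg : 0 < g) (e : Ex Δ) : SR (1 / (8 * (g : ℝ))) (mn g e) := by
  unfold mn
  exact SR.prod _ (by positivity) fun i _ => (SR_fr hg i).pow (by positivity) _

theorem E_mn {Δ g : ℕ} (hg : 0 < g) (e : Ex Δ) {z : ℝ} (hz : |z| ≤ 1 / (8 * (g : ℝ))) :
    E (mn g e) z = mv (fun i => E (fr g i) z) e := by
  unfold mn mv
  rw [E_prod _ (by positivity) (fun i _ => (SR_fr hg i).pow (by positivity) _) hz]
  refine Finset.prod_congr rfl fun i _ => ?_
  rw [E_pow (by positivity) (SR_fr hg i) hz]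

/-- **Linear independence** -/
theorem lin (k Δ : ℕ) (g : Fin k → ℕ) (hg : Function.Injective g) (hgp : ∀ l, 0 < g l) :
    LinearIndependent (Polynomial ℚ) (pmn (Δ := Δ) g) := by
  obtain ⟨α, β, hD⟩ := dat
  rw [Fintype.linearIndependent_iff]
  intro Q hQ
  -- a common radius
  set r : ℝ := 1 / (8 * ((∑ l, (g l : ℝ)) + 1)) with hr
  have hS : 0 ≤ ∑ l, (g l : ℝ) := Finset.sum_nonneg fun l _ => by positivity
  have hr0 : 0 < r := by positivity
  have hrl : ∀ l, r ≤ 1 / (8 * (g l : ℝ)) := by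
    intro l
    have h0 : (0 : ℝ) < g l := by exact_mod_cast hgp l
    apply one_div_le_one_div_of_le (by positivity)
    have := Finset.single_le_sum (f := fun l => (g l : ℝ)) (fun l _ => by positivity)
      (Finset.mem_univ l)
    linarith
  have hSR : ∀ b : Fin k → Ex Δ, ∀ l ∈ (Finset.univ : Finset (Fin k)), SR r (mn (g l) (b l)) :=
    fun b l _ => (SR_mn (hgp l) (b l)).mono hr0.le (hrl l)
  have hSP : ∀ b : Fin k → Ex Δ, SR r (pmn g b) := fun b => SR.prod _ hr0.le (hSR b)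
  have hval : ∀ z : ℝ, |z| ≤ r → ∑ b, ((Q b).map (Rat.castHom ℝ)).eval z *
      ∏ l, mv (fun i => E (four 0 i) (g l * z)) (b l) = 0 := by
    intro z hz
    have h1 : E (∑ b, Q b • pmn g b) z = 0 := by rw [hQ]; simp [E]
    have h2 : ∀ b, Q b • pmn g b = (Q b : PowerSeries ℚ) * pmn g b := fun b => by
      rw [Algebra.smul_def]; rfl
    simp only [h2] at h1
    rw [E_sum _ hr0.le (fun b _ => (SR.poly _ _).mul hr0.le (hSP b)) hz] at h1
    rw [← h1]
    refine Finset.sum_congr rfl fun b _ => ?_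
    rw [E_mul (SR.poly _ _) (hSP b) hz, E_poly]
    unfold pmn
    rw [E_prod _ hr0.le (hSR b) hz]
    congr 1
    · rw [Polynomial.eval_map, Polynomial.aeval_def]; rfl
    · refine Finset.prod_congr rfl fun l _ => ?_
      rw [E_mn (hgp l) (b l) (hz.trans (hrl l))]
      congr 1
      funext i
      exact (E_rs (g l) (four 0 i) z).symm
  have hsmall : ∀ᶠ z in 𝓝 (0 : ℝ), ∀ l, ∀ i, yt α β 0 (g l * z) i = E (four 0 i) (g l * z) := by
    rw [eventually_all]
    intro l
    have h1 : Tendsto (fun z : ℝ => (g l : ℝ) * z) (𝓝 0) (𝓝 0) := by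
      have h2 : Tendsto (fun z : ℝ => (g l : ℝ) * z) (𝓝 0) (𝓝 ((g l : ℝ) * 0)) :=
        (continuous_const.mul continuous_id).tendsto 0
      rwa [mul_zero] at h2
    exact h1.eventually (yt_small hD 0)
  have hball : ∀ᶠ z in 𝓝 (0 : ℝ), |z| ≤ r := by
    have : Metric.ball (0 : ℝ) r ∈ 𝓝 (0 : ℝ) := Metric.ball_mem_nhds _ hr0
    filter_upwards [this] with z hz
    rw [mem_ball_zero_iff, Real.norm_eq_abs] at hz
    exact hz.le
  have main := multi' hD Δ k (Fin k) g (fun b => (Q b).map (Rat.castHom ℝ)) (Fintype.card_fin k) hg hgp (by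
    filter_upwards [nhdsWithin_le_nhds hsmall, nhdsWithin_le_nhds hball] with z h1 h2
    rw [← hval z h2]
    refine Finset.sum_congr rfl fun b _ => ?_
    congr 1
    refine Finset.prod_congr rfl fun l _ => ?_
    congr 1
    exact funext (h1 l))
  intro b
  have := main b
  rwa [Polynomial.map_eq_zero] at this

end Pool.Agent.D0H75.LS
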