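import Mathlib

/-!
# Few elements in each window of multiples give few elements
-/

set_option autoImplicit false

open Finset

namespace Pool.Agent.D0H75.LS

theorem loglog16 {X : ℕ} (hX : 16 ≤ X) : 1 ≤ Real.log (Real.log X) := by
  have h1 : (16 : ℝ) ≤ X := by exact_mod_cast hX
  have h2 : Real.log 16 ≤ Real.log X := Real.log_le_log (by norm_num) h1
  have h3 : Real.log 16 = 4 * Real.log 2 := by
    rw [show (16 : ℝ) = 2 ^ 4 by norm_num, Real.log_pow]; norm_num
  have h4 := Real.log_two_gt_d9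
  have h5 : (2.77 : ℝ) ≤ Real.log X := by rw [h3] at h2; linarith
  have h6 : Real.exp 1 ≤ Real.log X := by
    have := Real.exp_one_lt_d9
    linarith
  rw [Real.le_log_iff_exp_le (by linarith)]
  exact h6

/-- the product of powers -/
def pp {s : ℕ} (a m : Fin s → ℕ) : ℕ := ∏ i, a i ^ m i

theorem pp_pos {s : ℕ} {a : Fin s → ℕ} (ha : ∀ i, 2 ≤ a i) (m : Fin s → ℕ) : 1 ≤ pp a m :=
  Finset.prod_pos fun i _ => Nat.pow_pos (by have := ha i; omega)

theorem pp_ne {s : ℕ} {a : Fin s → ℕ} (ha : ∀ i, 2 ≤ a i) (m : Fin s → ℕ) : pp a m ≠ 0 := by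
  have := pp_pos ha m
  omega

theorem pp_log {s : ℕ} {a : Fin s → ℕ} (ha : ∀ i, 2 ≤ a i) (m : Fin s → ℕ) :
    Real.log (pp a m) = ∑ i, (m i : ℝ) * Real.log (a i) := by
  unfold pp
  push_cast
  rw [Real.log_prod]
  · exact Finset.sum_congr rfl fun i _ => Real.log_pow _ _
  · intro i _
    have : (0 : ℝ) < a i := by
      have := ha i
      exact_mod_cast (show 0 < a i by omega)
    positivity

theorem pp_add {s : ℕ} (a m n : Fin s → ℕ) : pp a (m + n) = pp a m * pp a n := by
  unfold pp
  rw [← Finset.prod_mul_distrib]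
  exact Finset.prod_congr rfl fun i _ => by rw [Pi.add_apply, pow_add]

/-- **The covering** -/
theorem cov (s E τ : ℕ) (hE : 1 ≤ E) (a : Fin s → ℕ) (ha : ∀ i, 2 ≤ a i) (Y : ℕ) (hY : 16 ≤ Y)
    (B : Finset ℚ)
    (hB : ∀ x ∈ B, ∃ n m : Fin s → ℕ, x = (pp a n : ℚ) / pp a m ∧ pp a m ≤ Y ∧
      pp a n ^ (4 * E * (s + 1)) ≤ pp a m)
    (hwin : ∀ (b : Fin s → ℕ) (H : ℕ), (H + 2) ^ E ≤ pp a b → ∀ W ⊆ B,
      (∀ x ∈ W, ∃ g : Fin s → ℕ, pp a g ≤ H ∧ x = (pp a g : ℚ) / pp a b) → W.card ≤ τ) :
    (B.card : ℝ) ≤ (((12 * E + 1) ^ (2 * s) + 3 * τ * (8 * E * (s + 1) + 1) ^ s : ℕ) : ℝ) *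
      Real.log (Real.log Y) := by
  classical
  set K : ℕ := 2 * E * (s + 1) with hK
  have hK1 : 1 ≤ K := by rw [hK]; exact Nat.mul_pos (by omega) (by omega)
  have hLL := loglog16 hY
  set LL := Real.log (Real.log Y) with hLLd
  have hY0 : (16 : ℝ) ≤ Y := by exact_mod_cast hY
  have hl2 : ∀ i, Real.log 2 ≤ Real.log (a i) := fun i => by
    apply Real.log_le_log (by norm_num)
    exact_mod_cast ha i
  have hlog2 := Real.log_two_gt_d9
  have hlog2' := Real.log_two_lt_d9
  have hloga : ∀ i, 0 < Real.log (a i) := fun i => by linarith [hl2 i]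
  choose! n m hnm using hB
  set sl : ℚ → ℝ := fun x => ∑ i, (m x i : ℝ) * Real.log (a i) with hsl
  have hslD : ∀ x, Real.log (pp a (m x)) = sl x := fun x => pp_log ha _
  have hDpos : ∀ x, (0 : ℝ) < pp a (m x) := fun x => by exact_mod_cast pp_pos ha _
  have hApos : ∀ x, (0 : ℝ) < pp a (n x) := fun x => by exact_mod_cast pp_pos ha _
  have hsl0 : ∀ x, 0 ≤ sl x := fun x => Finset.sum_nonneg fun i _ => mul_nonneg (Nat.cast_nonneg _) (hloga i).le
  have hlA : ∀ x ∈ B, 2 * K * Real.log (pp a (n x)) ≤ sl x := by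
    intro x hx
    obtain ⟨h1, h2, h3⟩ := hnm x hx
    have h4 : ((pp a (n x) : ℕ) : ℝ) ^ (4 * E * (s + 1)) ≤ ((pp a (m x) : ℕ) : ℝ) := by exact_mod_cast h3
    have h5 := Real.log_le_log (by have := hApos x; positivity) h4
    rw [Real.log_pow, hslD] at h5
    have h6 : (2 : ℝ) * K = ((4 * E * (s + 1) : ℕ) : ℝ) := by rw [hK]; push_cast; ring
    rw [h6]
    exact h5
  -- small and large elements
  set B₀ := B.filter fun x => sl x < 8 * E with hB₀
  set B₁ := B.filter fun x => ¬ sl x < 8 * E with hB₁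
  have hsplit : B.card = B₀.card + B₁.card := by
    rw [hB₀, hB₁, Finset.card_filter_add_card_filter_not]
  have hER : (1 : ℝ) ≤ E := by exact_mod_cast hE
  have hKR : (1 : ℝ) ≤ K := by exact_mod_cast hK1
  have h0 : B₀.card ≤ (12 * E + 1) ^ (2 * s) := by
    set R := Fintype.piFinset fun _ : Fin s => range (12 * E + 1) with hR
    have hbd : ∀ (e : Fin s → ℕ), ∑ i, (e i : ℝ) * Real.log (a i) < 8 * E → e ∈ R := by
      intro e he
      rw [hR, Fintype.mem_piFinset]
      intro i
      rw [mem_range]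
      have h1 : (e i : ℝ) * Real.log (a i) ≤ ∑ i, (e i : ℝ) * Real.log (a i) :=
        Finset.single_le_sum (f := fun i => (e i : ℝ) * Real.log (a i))
          (fun i _ => mul_nonneg (Nat.cast_nonneg _) (hloga i).le) (mem_univ i)
      by_contra hcon
      have h2 : ((12 * E + 1 : ℕ) : ℝ) ≤ e i := by exact_mod_cast (not_lt.1 hcon)
      push_cast at h2
      have h3 : (12 * E + 1 : ℝ) * 0.69 ≤ (e i : ℝ) * Real.log (a i) :=
        mul_le_mul h2 (by linarith [hl2 i]) (by norm_num) (Nat.cast_nonneg _)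
      linarith
    have h1 : B₀.card ≤ (R ×ˢ R).card := by
      refine card_le_card_of_injOn (fun x => (n x, m x)) (fun x hx => ?_) (fun x hx y hy hxy => ?_)
      · obtain ⟨hxB, hxs⟩ := mem_filter.1 (mem_coe.1 hx)
        rw [mem_coe, mem_product]
        refine ⟨hbd _ ?_, hbd _ hxs⟩
        have h2 := hlA x hxB
        rw [pp_log ha] at h2
        have h3 : 0 ≤ ∑ i, (n x i : ℝ) * Real.log (a i) :=
          Finset.sum_nonneg fun i _ => mul_nonneg (Nat.cast_nonneg _) (hloga i).le
        nlinarith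
      · have h2 := (hnm x (mem_filter.1 (mem_coe.1 hx)).1).1
        have h3 := (hnm y (mem_filter.1 (mem_coe.1 hy)).1).1
        simp only [Prod.mk.injEq] at hxy
        rw [h2, h3, hxy.1, hxy.2]
    refine h1.trans (le_of_eq ?_)
    rw [card_product, hR, Fintype.card_piFinset_const, card_range, two_mul, pow_add]
  -- the key
  set u : ℚ → ℕ := fun x => Nat.log 2 ⌊sl x⌋₊ with hu
  set σ : ℕ → Fin s → ℕ := fun c i => max 1 ⌊(2 : ℝ) ^ c / (K * Real.log (a i))⌋₊ with hσ
  set key : ℚ → ℕ × (Fin s → ℕ) := fun x =>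
    (u x, fun i => (m x i + σ (u x) i - 1) / σ (u x) i) with hkey
  have hσ1 : ∀ c i, 1 ≤ σ c i := fun c i => le_max_left _ _
  have hupow : ∀ x ∈ B₁, (2 : ℝ) ^ u x ≤ sl x ∧ sl x < (2 : ℝ) ^ (u x + 1) ∧ (4 * E : ℝ) ≤ 2 ^ u x := by
    intro x hx
    have h4 : 8 * (E : ℝ) ≤ sl x := not_lt.1 (mem_filter.1 hx).2
    have hfl : 1 ≤ ⌊sl x⌋₊ := Nat.le_floor (by push_cast; linarith)
    have h6 : (2 : ℝ) ^ u x ≤ sl x := by
      have h7 : 2 ^ u x ≤ ⌊sl x⌋₊ := Nat.pow_log_le_self 2 (by omega)
      have h8 : ((2 ^ u x : ℕ) : ℝ) ≤ sl x := (Nat.le_floor_iff (by linarith)).1 h7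
      push_cast at h8
      exact h8
    have h7 : sl x < (2 : ℝ) ^ (u x + 1) := by
      have h8 : ⌊sl x⌋₊ < 2 ^ (u x + 1) := Nat.lt_pow_succ_log_self (by norm_num) _
      have h9 := (Nat.floor_lt (by linarith : (0 : ℝ) ≤ sl x)).1 h8
      push_cast at h9
      exact h9
    refine ⟨h6, h7, ?_⟩
    rw [pow_succ] at h7
    linarith
  have hmσ : ∀ x ∈ B₁, ∀ i, m x i ≤ 4 * K * σ (u x) i := by
    intro x hx i
    obtain ⟨h1, h2, h3⟩ := hupow x hx
    have hmi : (m x i : ℝ) * Real.log (a i) < 2 ^ (u x + 1) := by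
      refine lt_of_le_of_lt ?_ h2
      rw [hsl]
      exact Finset.single_le_sum (f := fun i => (m x i : ℝ) * Real.log (a i))
        (fun i _ => mul_nonneg (Nat.cast_nonneg _) (hloga i).le) (mem_univ i)
    have hgoal : (m x i : ℝ) ≤ 4 * K * σ (u x) i := by
      have hKl : 0 < (K : ℝ) * Real.log (a i) := mul_pos (by linarith) (hloga i)
      set y : ℝ := (2 : ℝ) ^ u x / (K * Real.log (a i)) with hy
      have hy1 : (m x i : ℝ) ≤ 2 * K * y := by
        rw [hy, ← mul_div_assoc, le_div_iff₀ hKl]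
        rw [pow_succ] at hmi
        have : (m x i : ℝ) * (K * Real.log (a i)) = K * ((m x i : ℝ) * Real.log (a i)) := by ring
        rw [this]
        have := mul_le_mul_of_nonneg_left hmi.le (by linarith : (0 : ℝ) ≤ K)
        linarith
      have hy2 : y ≤ 2 * σ (u x) i := by
        rw [hσ]
        simp only
        rw [← hy]
        rcases le_or_gt 1 y with h5 | h5
        · have h6 : y < ⌊y⌋₊ + 1 := Nat.lt_floor_add_one y
          have h7 : (1 : ℝ) ≤ ⌊y⌋₊ := by
            have : 1 ≤ ⌊y⌋₊ := Nat.le_floor (by push_cast; exact h5)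
            exact_mod_cast this
          have h8 : ((⌊y⌋₊ : ℕ) : ℝ) ≤ ((max 1 ⌊y⌋₊ : ℕ) : ℝ) := by exact_mod_cast le_max_right _ _
          linarith
        · have h8 : ((1 : ℕ) : ℝ) ≤ ((max 1 ⌊y⌋₊ : ℕ) : ℝ) := by exact_mod_cast le_max_left _ _
          push_cast at h8
          push_cast
          linarith
      nlinarith
    exact_mod_cast hgoal
  set L := ⌊1.5 * LL⌋₊ + 1 with hL
  set T := (range L) ×ˢ (Fintype.piFinset fun _ : Fin s => range (4 * K + 1)) with hT
  have hmaps : ∀ x ∈ B₁, key x ∈ T := by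
    intro x hx
    obtain ⟨h1, h2, h3⟩ := hupow x hx
    rw [hT, mem_product, hkey]
    simp only
    constructor
    · rw [mem_range, hL]
      have hnX : ((pp a (m x) : ℕ) : ℝ) ≤ Y := by exact_mod_cast (hnm x (mem_filter.1 hx).1).2.1
      have h4 : sl x ≤ Real.log Y := by
        rw [← hslD]
        exact Real.log_le_log (hDpos x) hnX
      have hlX : 0 < Real.log Y := Real.log_pos (by linarith)
      have h5 : (u x : ℝ) * Real.log 2 ≤ LL := by
        rw [hLLd, ← Real.log_pow]
        exact Real.log_le_log (by positivity) (h1.trans h4)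
      have h7 : (u x : ℝ) ≤ 1.5 * LL := by
        by_contra hcon
        push Not at hcon
        have h8 : (1.5 * LL) * Real.log 2 ≤ (u x : ℝ) * Real.log 2 :=
          mul_le_mul_of_nonneg_right hcon.le (by linarith)
        nlinarith
      have h8 : 1.5 * LL < (⌊1.5 * LL⌋₊ : ℝ) + 1 := Nat.lt_floor_add_one _
      have h9 : (u x : ℝ) < ((⌊1.5 * LL⌋₊ + 1 : ℕ) : ℝ) := by push_cast; linarith
      exact_mod_cast h9
    · rw [Fintype.mem_piFinset]
      intro i
      rw [mem_range]
      have h5 := hmσ x hx i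
      have h6 := hσ1 (u x) i
      rw [Nat.div_lt_iff_lt_mul (by omega)]
      have h7 : (4 * K + 1) * σ (u x) i = 4 * K * σ (u x) i + σ (u x) i := by ring
      rw [h7]
      omega
  have hcard : B₁.card ≤ τ * T.card := by
    refine Finset.card_le_mul_card_image_of_maps_to hmaps _ fun t _ => ?_
    rcases (B₁.filter fun x => key x = t).eq_empty_or_nonempty with h1 | ⟨x₁, hx₁⟩
    · rw [h1, card_empty]; exact Nat.zero_le _
    set c := t.1 with hc
    have hk : ∀ x ∈ B₁.filter (fun x => key x = t), u x = c ∧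
        ∀ i, (m x i + σ c i - 1) / σ c i = t.2 i := by
      intro x hx
      have h2 := (mem_filter.1 hx).2
      rw [hkey] at h2
      simp only at h2
      have h3 : u x = c := congrArg Prod.fst h2
      refine ⟨h3, fun i => ?_⟩
      have h4 := congrFun (congrArg Prod.snd h2) i
      simp only at h4
      rw [h3] at h4
      exact h4
    set b : Fin s → ℕ := fun i => σ c i * t.2 i with hb
    have hmb : ∀ x ∈ B₁.filter (fun x => key x = t), ∀ i, m x i ≤ b i ∧ b i - m x i ≤ σ c i - 1 := by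
      intro x hx i
      have h2 := (hk x hx).2 i
      rw [hb]
      simp only
      rw [← h2]
      have h3 := Nat.div_add_mod (m x i + σ c i - 1) (σ c i)
      have h4 := Nat.mod_lt (m x i + σ c i - 1) (hσ1 c i)
      have h5 := hσ1 c i
      constructor <;> omega
    set z : ℝ := (s + 1) * 2 ^ c / K with hz
    have hz0 : 0 ≤ z := by positivity
    set H : ℕ := ⌊Real.exp z⌋₊ with hH
    refine hwin b H ?_ _ ?_ fun x hx => ?_
    · -- the size of the window
      obtain ⟨g1, g2, g3⟩ := hupow x₁ (mem_filter.1 hx₁).1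
      rw [(hk x₁ hx₁).1] at g1 g2 g3
      have h2 : ((H : ℝ) + 2) ≤ 3 * Real.exp z := by
        have h3 : (H : ℝ) ≤ Real.exp z := Nat.floor_le (Real.exp_pos z).le
        have h4 : 1 ≤ Real.exp z := Real.one_le_exp hz0
        linarith
      have h3 : (3 : ℝ) ≤ Real.exp 2 := by
        have h4 : (2.7 : ℝ) < Real.exp 1 := by
          have := Real.exp_one_gt_d9
          linarith
        have h5 : Real.exp 2 = Real.exp 1 * Real.exp 1 := by rw [← Real.exp_add]; norm_num
        rw [h5]
        nlinarith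
      have h4 : ((H : ℝ) + 2) ^ E ≤ Real.exp (2 ^ c) := by
        calc ((H : ℝ) + 2) ^ E ≤ (Real.exp 2 * Real.exp z) ^ E := by
              refine pow_le_pow_left₀ (by positivity) (h2.trans ?_) _
              exact mul_le_mul_of_nonneg_right h3 (Real.exp_pos z).le
          _ = Real.exp (E * (2 + z)) := by rw [← Real.exp_add, Real.exp_nat_mul]
          _ ≤ Real.exp (2 ^ c) := by
              apply Real.exp_le_exp.2
              have h5 : (E : ℝ) * z = 2 ^ c / 2 := by
                rw [hz, hK]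
                push_cast
                have : (E : ℝ) ≠ 0 := by linarith
                field_simp
              have h6 : (E : ℝ) * (2 + z) = 2 * E + E * z := by ring
              rw [h6, h5]
              linarith
      have h5 : Real.exp (2 ^ c) ≤ pp a (m x₁) := by
        rw [← Real.exp_log (hDpos x₁), hslD]
        exact Real.exp_le_exp.2 g1
      have h6 : ((pp a (m x₁) : ℕ) : ℝ) ≤ ((pp a b : ℕ) : ℝ) := by
        have : pp a (m x₁) ≤ pp a b := by
          unfold pp
          refine Finset.prod_le_prod' fun i _ => ?_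
          exact Nat.pow_le_pow_right (by have := ha i; omega) (hmb x₁ hx₁ i).1
        exact_mod_cast this
      have h7 : ((H + 2 : ℕ) : ℝ) ^ E ≤ ((pp a b : ℕ) : ℝ) := by
        push_cast
        linarith
      exact_mod_cast h7
    · exact (filter_subset _ _).trans (filter_subset _ _)
    · -- the elements
      have hx1 := (mem_filter.1 hx).1
      have hxB := (mem_filter.1 hx1).1
      obtain ⟨g1, g2, g3⟩ := hupow x hx1
      rw [(hk x hx).1] at g1 g2 g3
      obtain ⟨e1, e2, e3⟩ := hnm x hxB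
      have hmb' : m x + (b - m x) = b := by
        funext i
        have := (hmb x hx i).1
        simp only [Pi.add_apply, Pi.sub_apply]
        omega
      refine ⟨n x + (b - m x), ?_, ?_⟩
      · have hlogA : Real.log (pp a (n x)) ≤ 2 ^ c / K := by
          have h3 := hlA x hxB
          rw [le_div_iff₀ (by linarith)]
          rw [pow_succ] at g2
          nlinarith
        have hlogb : ∀ i, ((b i - m x i : ℕ) : ℝ) * Real.log (a i) ≤ 2 ^ c / K := by
          intro i
          have h3 := (hmb x hx i).2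
          have h4 : ((σ c i - 1 : ℕ) : ℝ) ≤ 2 ^ c / (K * Real.log (a i)) := by
            have hy0 : (0 : ℝ) ≤ 2 ^ c / (K * Real.log (a i)) :=
              div_nonneg (by positivity) (mul_nonneg (by linarith) (hloga i).le)
            rw [hσ]
            simp only
            rcases le_or_gt 1 ⌊(2 : ℝ) ^ c / (K * Real.log (a i))⌋₊ with h5 | h5
            · rw [max_eq_right h5]
              refine le_trans ?_ (Nat.floor_le hy0)
              exact_mod_cast Nat.sub_le _ _
            · rw [max_eq_left h5.le, Nat.sub_self, Nat.cast_zero]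
              exact hy0
          calc ((b i - m x i : ℕ) : ℝ) * Real.log (a i) ≤ 2 ^ c / (K * Real.log (a i)) * Real.log (a i) := by
                refine mul_le_mul_of_nonneg_right (le_trans ?_ h4) (hloga i).le
                exact_mod_cast h3
            _ = 2 ^ c / K := by
                have := (hloga i).ne'
                field_simp
        have hprod : ((pp a (n x + (b - m x)) : ℕ) : ℝ) ≤ Real.exp z := by
          have hp : (0 : ℝ) < ((pp a (n x + (b - m x)) : ℕ) : ℝ) := by exact_mod_cast pp_pos ha _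
          rw [← Real.exp_log hp]
          apply Real.exp_le_exp.2
          rw [pp_add]
          push_cast
          rw [Real.log_mul (hApos x).ne' (by exact_mod_cast pp_ne ha (b - m x)), pp_log ha (b - m x)]
          have h4 : ∑ i, (((b - m x) i : ℕ) : ℝ) * Real.log (a i) ≤ ∑ _i : Fin s, (2 : ℝ) ^ c / K :=
            Finset.sum_le_sum fun i _ => hlogb i
          rw [Finset.sum_const, card_univ, Fintype.card_fin, nsmul_eq_mul] at h4
          rw [hz]
          have h5 : ((s : ℝ) + 1) * 2 ^ c / K = 2 ^ c / K + s * (2 ^ c / K) := by ring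
          rw [h5]
          linarith
        exact Nat.le_floor hprod
      · refine e1.trans ?_
        have h1 : pp a b = pp a (m x) * pp a (b - m x) := by rw [← pp_add, hmb']
        have h2 : (pp a (m x) : ℚ) ≠ 0 := by exact_mod_cast pp_ne ha (m x)
        have h3 : (pp a (b - m x) : ℚ) ≠ 0 := by exact_mod_cast pp_ne ha (b - m x)
        rw [h1, pp_add]
        push_cast
        rw [mul_div_mul_right _ _ h3]
  have hTc : T.card = L * (4 * K + 1) ^ s := by
    rw [hT, card_product, card_range, Fintype.card_piFinset_const, card_range]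
  have hLR : (L : ℝ) ≤ 3 * LL := by
    rw [hL]
    push_cast
    have : (⌊1.5 * LL⌋₊ : ℝ) ≤ 1.5 * LL := Nat.floor_le (by linarith)
    linarith
  have hfin : (B.card : ℝ) ≤ (12 * E + 1) ^ (2 * s) + τ * (L * (4 * K + 1) ^ s) := by
    rw [hTc] at hcard
    have h1 : B.card ≤ (12 * E + 1) ^ (2 * s) + τ * (L * (4 * K + 1) ^ s) := by
      rw [hsplit]
      exact Nat.add_le_add h0 hcard
    exact_mod_cast h1
  refine hfin.trans ?_
  have hK4 : (8 * E * (s + 1) + 1 : ℝ) = 4 * K + 1 := by rw [hK]; push_cast; ring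
  push_cast
  rw [hK4]
  have hW : (0 : ℝ) ≤ τ * (4 * K + 1 : ℝ) ^ s := by positivity
  have hV : (0 : ℝ) ≤ (12 * E + 1 : ℝ) ^ (2 * s) := by positivity
  have e1 : (τ : ℝ) * (L * (4 * K + 1) ^ s) = L * (τ * (4 * K + 1 : ℝ) ^ s) := by ring
  have e2 := mul_le_mul_of_nonneg_right hLR hW
  have e3 := mul_le_mul_of_nonneg_left hLL hV
  rw [e1]
  calc (12 * E + 1 : ℝ) ^ (2 * s) + L * (τ * (4 * K + 1 : ℝ) ^ s)
      ≤ (12 * E + 1 : ℝ) ^ (2 * s) * LL + 3 * LL * (τ * (4 * K + 1 : ℝ) ^ s) := by linarith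
    _ = _ := by ring

end Pool.Agent.D0H75.LS
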