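import Pool.Agent.D0H75.LS.Win
import Pool.Agent.D0H75.LS.Cov

/-!
# Tuples
-/

set_option autoImplicit false

open Module

namespace Pool.Agent.D0H75.LS

open Pool.Agent.Y916.Hil Pool.Agent.Y916.Om Pool.Agent.R351.GD Pool.Agent.Y113

open Classical in
/-- tuples -/
theorem tup_gen {ι : Type} {Ω : Type} [Field Ω] [CharZero Ω] {σ : Type} [Fintype σ] (x : ι → σ → Ω) (δ T Z Q e' : ℕ)
    (A : Finset ι) (hA : A.card ≤ T)
    (H : ∀ w' : Fin Q → Ω, (A.filter fun n => BadW δ δ e' w' (x n)).card ≤ Z) (k : ℕ) :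
    ∀ (e : ℕ) (υ : Type) [Fintype υ] (w : υ → Ω), Fintype.card υ + k * Fintype.card σ ≤ Q → e + k * δ ≤ e' →
    ((Fintype.piFinset fun _ : Fin k => A).filter fun t =>
      BadW δ δ e w (fun p : Fin k × σ => x (t p.1) p.2)).card ≤ k * Z * T ^ (k - 1) := by
  induction k with
  | zero =>
    intro e υ _ w _ _
    rw [Finset.filter_false_of_mem, Finset.card_empty]
    · exact Nat.zero_le _
    · rintro g _ ⟨K, -, -, P, hP0, -, -, hPv⟩
      obtain ⟨a, rfl⟩ : ∃ a, P = MvPolynomial.C a := ⟨_, MvPolynomial.eq_C_of_isEmpty P⟩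
      rw [MvPolynomial.aeval_C] at hPv
      apply hP0
      have : a = 0 := hPv
      rw [this, map_zero]
  | succ k ih =>
    intro e υ _ w hυ he
    have hek : e + k * δ ≤ e' := by
      have : (k + 1) * δ = k * δ + δ := by ring
      omega
    have heδ : e + δ ≤ e' := by
      have : (k + 1) * δ = k * δ + δ := by ring
      have h0 : 0 ≤ k * δ := Nat.zero_le _
      omega
    have hυk : Fintype.card υ + k * Fintype.card σ ≤ Q := by
      have : (k + 1) * Fintype.card σ = k * Fintype.card σ + Fintype.card σ := by ring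
      omega
    set y : (Fin k → ι) → Fin k × σ → Ω := fun t p => x (t p.1) p.2 with hy
    set bad₁ := (Fintype.piFinset fun _ : Fin k => A).filter fun t => BadW δ δ e w (y t) with hbad₁
    set bad₂ : (Fin k → ι) → Finset ι := fun t => A.filter fun n =>
      BadW δ δ (e + δ) (Sum.elim w (y t)) (x n) with hbad₂
    have hsub : ((Fintype.piFinset fun _ : Fin (k + 1) => A).filter fun t =>
        BadW δ δ e w (fun p : Fin (k + 1) × σ => x (t p.1) p.2)) ⊆
        ((A ×ˢ bad₁).image fun p => (Fin.cons p.1 p.2 : Fin (k + 1) → ι)) ∪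
        (((Fintype.piFinset fun _ : Fin k => A).sigma bad₂).image
          fun p => (Fin.cons p.2 p.1 : Fin (k + 1) → ι)) := by
      intro t ht
      obtain ⟨ht1, ht2⟩ := Finset.mem_filter.1 ht
      rw [Fintype.mem_piFinset] at ht1
      set en : Fin k × σ ⊕ σ ≃ Fin (k + 1) × σ :=
        { toFun := Sum.elim (fun p => (p.1.succ, p.2)) (fun s => (0, s))
          invFun := fun p => Fin.cases (Sum.inr p.2) (fun i => Sum.inl (i, p.2)) p.1
          left_inv := by rintro (⟨i, s⟩ | s) <;> simp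
          right_inv := by
            rintro ⟨i, s⟩
            refine Fin.cases ?_ (fun i => ?_) i <;> simp } with hen
      have h4 : (fun j => x (t (en j).1) (en j).2) = Sum.elim (y fun i => t i.succ) (x (t 0)) := by
        funext j
        rcases j with ⟨i, s⟩ | s
        · rfl
        · rfl
      have h3 : BadW δ δ e w (Sum.elim (y fun i => t i.succ) (x (t 0))) := by
        rw [← h4]
        exact BadW.reindex en ht2
      have htail : (fun i => t i.succ) ∈ Fintype.piFinset fun _ : Fin k => A := by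
        rw [Fintype.mem_piFinset]
        exact fun i => ht1 i.succ
      rcases h3.split with h5 | h5
      · refine Finset.mem_union_left _ (Finset.mem_image.2 ⟨(t 0, fun i => t i.succ), ?_, ?_⟩)
        · exact Finset.mem_product.2 ⟨ht1 0, Finset.mem_filter.2 ⟨htail, h5⟩⟩
        · funext i
          refine Fin.cases ?_ (fun i => ?_) i <;> simp
      · refine Finset.mem_union_right _ (Finset.mem_image.2 ⟨⟨fun i => t i.succ, t 0⟩, ?_, ?_⟩)
        · exact Finset.mem_sigma.2 ⟨htail, Finset.mem_filter.2 ⟨ht1 0, h5⟩⟩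
        · funext i
          refine Fin.cases ?_ (fun i => ?_) i <;> simp
    have hb1 : bad₁.card ≤ k * Z * T ^ (k - 1) := ih e υ w hυk hek
    have hb2 : ∀ t, (bad₂ t).card ≤ Z := by
      intro t
      obtain ⟨w', hw'⟩ := exists_fin (Sum.elim w (y t)) (Q := Q) (by
        rw [Fintype.card_sum, Fintype.card_prod, Fintype.card_fin]
        exact hυk)
      refine (Finset.card_le_card fun n hn => ?_).trans (H w')
      obtain ⟨hn1, hn2⟩ := Finset.mem_filter.1 hn
      exact Finset.mem_filter.2 ⟨hn1, BadW.mono_e (hn2.mono hw') heδ⟩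
    refine (Finset.card_le_card hsub).trans ((Finset.card_union_le _ _).trans
      ((add_le_add Finset.card_image_le Finset.card_image_le).trans ?_))
    rw [Finset.card_product, Finset.card_sigma]
    have h6 : ∑ t ∈ Fintype.piFinset (fun _ : Fin k => A), (bad₂ t).card ≤ T ^ k * Z := by
      refine (Finset.sum_le_card_nsmul _ _ _ fun g _ => hb2 g).trans ?_
      rw [smul_eq_mul, Fintype.card_piFinset]
      simp only [Finset.prod_const, Finset.card_univ, Fintype.card_fin]
      exact Nat.mul_le_mul_right _ (Nat.pow_le_pow_left hA _)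
    have h7 : A.card * bad₁.card ≤ k * Z * T ^ k := by
      rcases Nat.eq_zero_or_pos k with rfl | hk
      · have h8 : bad₁.card = 0 := by
          have h9 := hb1
          simp only [zero_mul, Nat.le_zero] at h9
          exact h9
        rw [h8, mul_zero]
        exact Nat.zero_le _
      · calc A.card * bad₁.card ≤ T * (k * Z * T ^ (k - 1)) := Nat.mul_le_mul hA hb1
          _ = k * Z * (T ^ (k - 1) * T) := by ring
          _ = _ := by rw [← pow_succ, Nat.sub_add_cancel hk]
    refine (add_le_add h7 h6).trans (le_of_eq ?_)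
    rw [Nat.add_sub_cancel]
    ring


open Classical in
/-- **S-units: tuples** -/
theorem main_tuples (k q s : ℕ) : ∃ C : ℕ, ∀ (δ : ℕ) (a : Fin s → ℕ), (∀ i, 2 ≤ a i) → ∀ (w : Fin q → ℂ) (Y : ℕ),
    16 ≤ Y → ∀ Λ : Finset ℚ, (∀ x ∈ Λ, ∃ n m : Fin s → ℕ, x = (pp a n : ℚ) / pp a m ∧ pp a m ≤ Y ∧
      pp a n ^ ((δ + 2) ^ C) ≤ pp a m) →
    (((Fintype.piFinset fun _ : Fin k => Λ).filter fun t =>
      RelK δ (cst a w) (fun p : Fin k × Fin 3 => pr ((t p.1 : ℚ) : ℝ) p.2)).card : ℝ) ≤
      ((δ : ℝ) + 2) ^ C * Real.log (Real.log Y) * (Λ.card : ℝ) ^ (k - 1) := by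
  set Q : ℕ := s + q + 1 + k * Fintype.card (Fin 3) with hQ
  obtain ⟨E₀, hE₀p, hE₀⟩ := window 1 Q s
  set E : ℕ → ℕ := fun δ => E₀ ((k + 2) * δ) + 1 with hEdef
  have hEp : PB E := (hE₀p.comp ((PB.const (k + 2)).mul PB.id)).add (PB.const 1)
  set τ : ℕ := Q + s + 2 with hτ
  set M : ℕ → ℕ := fun δ => (12 * E δ + 1) ^ (2 * s) + 3 * τ * (8 * E δ * (s + 1) + 1) ^ s with hM
  have hMp : PB M := by
    have h1 : PB fun δ => (12 * E δ + 1) ^ (2 * s) := (((PB.const 12).mul hEp).add (PB.const 1)).pow (2 * s)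
    have h2 : PB fun δ => (8 * E δ * (s + 1) + 1) ^ s :=
      ((((PB.const 8).mul hEp).mul (PB.const (s + 1))).add (PB.const 1)).pow s
    exact h1.add ((PB.const (3 * τ)).mul h2)
  obtain ⟨C, hC⟩ := ((PB.const k).mul hMp).add ((PB.const 4).mul (hEp.mul (PB.const (s + 1))))
  refine ⟨C, fun δ a ha w Y hY Λ hΛ => ?_⟩
  have hCδ : k * M δ + 4 * (E δ * (s + 1)) ≤ (δ + 2) ^ C := hC δ
  have hLL := loglog16 hY
  set LL := Real.log (Real.log Y) with hLLd
  have hE1 : 1 ≤ E δ := Nat.le_add_left _ _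
  have h1 := tup_gen (fun x : ℚ => pr ((x : ℚ) : ℝ)) δ Λ.card ⌊(M δ : ℝ) * LL⌋₊ Q ((k + 1) * δ) Λ le_rfl (fun w' => by
      apply Nat.le_floor
      have h2 := cov s (E δ) τ hE1 a ha Y hY (Λ.filter fun x => BadW δ δ ((k + 1) * δ) w' (pr ((x : ℚ) : ℝ)))
        (fun x hx => by
          obtain ⟨n, m, e1, e2, e3⟩ := hΛ x (Finset.mem_filter.1 hx).1
          refine ⟨n, m, e1, e2, (Nat.pow_le_pow_right (pp_pos ha n) ?_).trans e3⟩
          have h4 : 4 * E δ * (s + 1) = 4 * (E δ * (s + 1)) := by ring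
          omega)
        (fun b H hH W hW hWx => by
          obtain ⟨S, hS, hwin⟩ := hE₀ ((k + 2) * δ) H (pp a b)
            ((Nat.pow_le_pow_right (by omega) (Nat.le_succ _)).trans hH) a (Fin Q) w' (by rw [Fintype.card_fin])
          choose! g hg using hWx
          have hb0 : (pp a b : ℚ) ≠ 0 := by exact_mod_cast pp_ne ha b
          refine (Finset.card_le_card_of_injOn (fun x => pp a (g x)) (fun x hx => ?_) (fun x hx y hy hxy => ?_)).trans hS
          · by_contra hcon
            obtain ⟨h3, h4⟩ := hg x hx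
            have h5 := (Finset.mem_filter.1 (hW hx)).2
            have h6 := badW_relK (δ' := (k + 2) * δ) h5 (Nat.le_mul_of_pos_left δ (by omega))
              (le_of_eq (by ring))
            refine hwin (fun _ => pp a (g x)) (fun i j _ => Subsingleton.elim i j)
              (fun _ => ⟨pp_pos ha _, h3, hcon, fun j => (g x j : ℚ), ?_⟩) ?_
            · rw [pp_log ha]
              simp
            · have h7 := h6.embed (cst a w') (fun j => some (Sum.inr j)) (fun _ => rfl)
                (Equiv.uniqueProd (Fin 3) (Fin 1)).symm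
              have h8 : (((x : ℚ) : ℝ)) = ((pp a (g x) : ℕ) : ℝ) / ((pp a b : ℕ) : ℝ) := by
                conv_lhs => rw [h4]
                push_cast
                rfl
              rw [← h8]
              exact h7
          · have e1 := (hg x hx).2
            have e2 := (hg y hy).2
            rw [e1, e2]
            have : pp a (g x) = pp a (g y) := hxy
            rw [this])
      exact h2) k δ (Option (Fin s ⊕ Fin q)) (cst a w)
    (by rw [Fintype.card_option, Fintype.card_sum, Fintype.card_fin, Fintype.card_fin]) (le_of_eq (by ring))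
  have h2 : (((Fintype.piFinset fun _ : Fin k => Λ).filter fun t =>
      RelK δ (cst a w) (fun p : Fin k × Fin 3 => pr ((t p.1 : ℚ) : ℝ) p.2)).card : ℝ) ≤
        k * ⌊(M δ : ℝ) * LL⌋₊ * (Λ.card : ℝ) ^ (k - 1) := by
    have h3 : ((Fintype.piFinset fun _ : Fin k => Λ).filter fun t =>
        RelK δ (cst a w) (fun p : Fin k × Fin 3 => pr ((t p.1 : ℚ) : ℝ) p.2)).card ≤
          k * ⌊(M δ : ℝ) * LL⌋₊ * Λ.card ^ (k - 1) := by
      refine (Finset.card_le_card fun t ht => ?_).trans h1
      obtain ⟨ht1, ht2⟩ := Finset.mem_filter.1 ht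
      exact Finset.mem_filter.2 ⟨ht1, relK_badW ht2⟩
    exact_mod_cast h3
  refine h2.trans (mul_le_mul_of_nonneg_right ?_ (by positivity))
  have h3 : (⌊(M δ : ℝ) * LL⌋₊ : ℝ) ≤ M δ * LL := Nat.floor_le (by positivity)
  have h4 : (k * M δ : ℝ) ≤ ((δ : ℝ) + 2) ^ C := by
    have : k * M δ ≤ (δ + 2) ^ C := by omega
    exact_mod_cast this
  calc (k : ℝ) * (⌊(M δ : ℝ) * LL⌋₊ : ℝ) ≤ k * (M δ * LL) := mul_le_mul_of_nonneg_left h3 (Nat.cast_nonneg _)
    _ = (k * M δ) * LL := by ring
    _ ≤ _ := mul_le_mul_of_nonneg_right h4 (by linarith)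

end Pool.Agent.D0H75.LS
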