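import Pool.Agent.D0H75.LS.Tup
import Pool.Agent.TH659.AQ.Leg

/-!
# From the three numbers `K`, `E`, `K'` to the period matrices and the torsor
-/

set_option autoImplicit false

open Module Filter Topology

namespace Pool.Agent.D0H75.LS

open Pool.Agent.Y113 Pool.Agent.R351.GD

/-- the entries of a tuple of matrices -/
def ent {k : ℕ} (M : Fin k → Matrix (Fin 2) (Fin 2) ℂ) (p : Fin k × Fin 2 × Fin 2) : ℂ := M p.1 p.2.1 p.2.2

/-- the matrices with given first three entries and determinant `- c / 2` -/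
noncomputable def mat {k : ℕ} (c : ℂ) (v : Fin k × Fin 3 → ℂ) (i : Fin k) : Matrix (Fin 2) (Fin 2) ℂ :=
  !![v (i, 0), v (i, 2); v (i, 1), (-c / 2 + v (i, 2) * v (i, 1)) / v (i, 0)]

theorem mat_det {k : ℕ} {c : ℂ} {v : Fin k × Fin 3 → ℂ} {i : Fin k} (h : v (i, 0) ≠ 0) :
    (mat c v i).det = -c / 2 := by
  rw [mat, Matrix.det_fin_two_of]
  field_simp
  ring

/-- the first three entries -/
def fst3 {k : ℕ} (M : Fin k → Matrix (Fin 2) (Fin 2) ℂ) (p : Fin k × Fin 3) : ℂ :=
  ![M p.1 0 0, M p.1 1 0, M p.1 0 1] p.2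

theorem mat_fst3 {k : ℕ} {c : ℂ} {M : Fin k → Matrix (Fin 2) (Fin 2) ℂ} (i : Fin k) (h0 : M i 0 0 ≠ 0)
    (h : (M i).det = -c / 2) : mat c (fst3 M) i = M i := by
  rw [Matrix.det_fin_two] at h
  have h1 : (-c / 2 + M i 0 1 * M i 1 0) / M i 0 0 = M i 1 1 := by
    rw [← h]
    field_simp
    ring
  ext a b
  fin_cases a <;> fin_cases b
  · simp [mat, fst3]
  · simp [mat, fst3]
  · simp [mat, fst3]
  · simp only [mat, fst3]
    simpa using h1

/-- clearing denominators -/
theorem clear {F : Type} [Field F] [Algebra F ℂ] {τ ρ : Type} (P : MvPolynomial τ F) {δ k : ℕ} (hP : P.totalDegree ≤ δ)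
    (D : MvPolynomial ρ F) (N : τ → MvPolynomial ρ F) (hD : D.totalDegree ≤ k) (hN : ∀ j, (N j).totalDegree ≤ k + 1) :
    ∃ Q : MvPolynomial ρ F, Q.totalDegree ≤ (k + 1) * δ ∧ ∀ v : ρ → ℂ, MvPolynomial.aeval v D ≠ 0 →
      MvPolynomial.aeval v Q = MvPolynomial.aeval v D ^ δ *
        MvPolynomial.aeval (fun j => MvPolynomial.aeval v (N j) / MvPolynomial.aeval v D) P := by
  classical
  have hm : ∀ m ∈ P.support, (m.sum fun _ e => e) ≤ δ := fun m hm => (MvPolynomial.le_totalDegree hm).trans hP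
  refine ⟨∑ m ∈ P.support, MvPolynomial.C (P.coeff m) * (D ^ (δ - m.sum fun _ e => e) *
    ∏ j ∈ m.support, N j ^ m j), ?_, fun v hv => ?_⟩
  · refine MvPolynomial.totalDegree_finsetSum_le fun m hms => ?_
    refine (MvPolynomial.totalDegree_mul _ _).trans ?_
    rw [MvPolynomial.totalDegree_C, zero_add]
    refine (MvPolynomial.totalDegree_mul _ _).trans ?_
    have h1 : (D ^ (δ - m.sum fun _ e => e)).totalDegree ≤ (δ - m.sum fun _ e => e) * k :=
      (MvPolynomial.totalDegree_pow _ _).trans (Nat.mul_le_mul_left _ hD)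
    have h2 : (∏ j ∈ m.support, N j ^ m j).totalDegree ≤ (m.sum fun _ e => e) * (k + 1) := by
      refine (MvPolynomial.totalDegree_finsetProd _ _).trans ?_
      rw [Finsupp.sum, Finset.sum_mul]
      exact Finset.sum_le_sum fun j _ => (MvPolynomial.totalDegree_pow _ _).trans (Nat.mul_le_mul_left _ (hN j))
    refine (add_le_add h1 h2).trans ?_
    have h3 := hm m hms
    calc (δ - m.sum fun _ e => e) * k + (m.sum fun _ e => e) * (k + 1) ≤
        (δ - m.sum fun _ e => e) * (k + 1) + (m.sum fun _ e => e) * (k + 1) := by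
          exact Nat.add_le_add_right (Nat.mul_le_mul_left _ (Nat.le_succ k)) _
      _ = (k + 1) * δ := by
          rw [← Nat.add_mul, Nat.sub_add_cancel h3, Nat.mul_comm]
  · rw [map_sum, MvPolynomial.aeval_def (fun j => MvPolynomial.aeval v (N j) / MvPolynomial.aeval v D) P,
      MvPolynomial.eval₂_eq, Finset.mul_sum]
    refine Finset.sum_congr rfl fun m hms => ?_
    rw [map_mul, map_mul, map_pow, map_prod, MvPolynomial.algHom_C]
    have h3 := hm m hms
    have h4 : ∏ i ∈ m.support, (MvPolynomial.aeval v (N i) / MvPolynomial.aeval v D) ^ m i =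
        (∏ i ∈ m.support, MvPolynomial.aeval v (N i) ^ m i) / MvPolynomial.aeval v D ^ (m.sum fun _ e => e) := by
      rw [Finsupp.sum, ← Finset.prod_pow_eq_pow_sum, ← Finset.prod_div_distrib]
      exact Finset.prod_congr rfl fun i _ => div_pow _ _ _
    rw [h4]
    have h5 : MvPolynomial.aeval v D ^ δ = MvPolynomial.aeval v D ^ (δ - m.sum fun _ e => e) *
        MvPolynomial.aeval v D ^ (m.sum fun _ e => e) := by
      rw [← pow_add, Nat.sub_add_cancel h3]
    rw [h5]
    have h6 : MvPolynomial.aeval v D ^ (m.sum fun _ e => e) ≠ 0 := pow_ne_zero _ hv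
    simp only [map_pow]
    field_simp

theorem hom {F : Type} [Field F] [Algebra F ℂ] {σ : Type} (o : σ) {k δ : ℕ}
    (P : MvPolynomial (σ ⊕ Fin k × Fin 2 × Fin 2) F) (hP : P.totalDegree ≤ δ) :
    ∃ Q : MvPolynomial (σ ⊕ Fin k × Fin 3) F, Q.totalDegree ≤ (k + 1) * δ ∧
      ∀ (c : σ → ℂ) (v : Fin k × Fin 3 → ℂ), (∀ i, v (i, 0) ≠ 0) →
        MvPolynomial.aeval (Sum.elim c v) Q = (∏ i, v (i, 0)) ^ δ *
          MvPolynomial.aeval (Sum.elim c (ent (mat (c o) v))) P := by
  classical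
  set D : MvPolynomial (σ ⊕ Fin k × Fin 3) F := ∏ i, MvPolynomial.X (Sum.inr (i, 0)) with hD
  set N : σ ⊕ Fin k × Fin 2 × Fin 2 → MvPolynomial (σ ⊕ Fin k × Fin 3) F :=
    Sum.elim (fun j => MvPolynomial.X (Sum.inl j) * D) (fun p =>
      (!![MvPolynomial.X (Sum.inr (p.1, 0)) * D, MvPolynomial.X (Sum.inr (p.1, 2)) * D;
        MvPolynomial.X (Sum.inr (p.1, 1)) * D,
        (MvPolynomial.X (Sum.inl o) * MvPolynomial.C (-1 / 2) +
          MvPolynomial.X (Sum.inr (p.1, 2)) * MvPolynomial.X (Sum.inr (p.1, 1))) *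
            ∏ j ∈ Finset.univ.erase p.1, MvPolynomial.X (Sum.inr (j, 0))] :
        Matrix (Fin 2) (Fin 2) (MvPolynomial (σ ⊕ Fin k × Fin 3) F)) p.2.1 p.2.2) with hN
  have hDd : D.totalDegree ≤ k := by
    refine (MvPolynomial.totalDegree_finsetProd _ _).trans ?_
    refine (Finset.sum_le_card_nsmul _ _ 1 fun i _ => (MvPolynomial.totalDegree_X _).le).trans ?_
    simp
  have hX : ∀ j, (MvPolynomial.X j * D : MvPolynomial (σ ⊕ Fin k × Fin 3) F).totalDegree ≤ k + 1 := by
    intro j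
    refine (MvPolynomial.totalDegree_mul _ _).trans ?_
    rw [MvPolynomial.totalDegree_X]
    omega
  have hNd : ∀ j, (N j).totalDegree ≤ k + 1 := by
    rintro (j | ⟨i, a, b⟩)
    · exact hX _
    · fin_cases a <;> fin_cases b
      · exact hX _
      · exact hX _
      · exact hX _
      · show ((MvPolynomial.X (Sum.inl o) * MvPolynomial.C (-1 / 2) +
          MvPolynomial.X (Sum.inr (i, 2)) * MvPolynomial.X (Sum.inr (i, 1))) *
            ∏ j ∈ Finset.univ.erase i, MvPolynomial.X (Sum.inr (j, 0)) :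
              MvPolynomial (σ ⊕ Fin k × Fin 3) F).totalDegree ≤ k + 1
        refine (MvPolynomial.totalDegree_mul _ _).trans ?_
        have h1 : ((MvPolynomial.X (Sum.inl o) * MvPolynomial.C (-1 / 2) +
          MvPolynomial.X (Sum.inr (i, 2)) * MvPolynomial.X (Sum.inr (i, 1)) :
            MvPolynomial (σ ⊕ Fin k × Fin 3) F)).totalDegree ≤ 2 := by
          refine (MvPolynomial.totalDegree_add _ _).trans (max_le ?_ ?_)
          · refine (MvPolynomial.totalDegree_mul _ _).trans ?_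
            rw [MvPolynomial.totalDegree_X, MvPolynomial.totalDegree_C]
            omega
          · refine (MvPolynomial.totalDegree_mul _ _).trans ?_
            rw [MvPolynomial.totalDegree_X, MvPolynomial.totalDegree_X]
        have h2 : (∏ j ∈ Finset.univ.erase i, MvPolynomial.X (Sum.inr (j, 0)) :
              MvPolynomial (σ ⊕ Fin k × Fin 3) F).totalDegree ≤ k - 1 := by
          refine (MvPolynomial.totalDegree_finsetProd _ _).trans ?_
          refine (Finset.sum_le_card_nsmul _ _ 1 fun i _ => (MvPolynomial.totalDegree_X _).le).trans ?_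
          rw [Finset.card_erase_of_mem (Finset.mem_univ _)]
          simp
        have h3 : 0 < k := i.pos
        omega
  have hN0 : ∀ j, N (Sum.inl j) = MvPolynomial.X (Sum.inl j) * D := fun _ => rfl
  have hN1 : ∀ i, N (Sum.inr (i, 0, 0)) = MvPolynomial.X (Sum.inr (i, 0)) * D := fun _ => rfl
  have hN2 : ∀ i, N (Sum.inr (i, 0, 1)) = MvPolynomial.X (Sum.inr (i, 2)) * D := fun _ => rfl
  have hN3 : ∀ i, N (Sum.inr (i, 1, 0)) = MvPolynomial.X (Sum.inr (i, 1)) * D := fun _ => rfl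
  have hN4 : ∀ i, N (Sum.inr (i, 1, 1)) = (MvPolynomial.X (Sum.inl o) * MvPolynomial.C (-1 / 2) +
          MvPolynomial.X (Sum.inr (i, 2)) * MvPolynomial.X (Sum.inr (i, 1))) *
            ∏ j ∈ Finset.univ.erase i, MvPolynomial.X (Sum.inr (j, 0)) := fun _ => rfl
  obtain ⟨Q, hQ, hQv⟩ := clear P hP D N hDd hNd
  refine ⟨Q, hQ, fun c v hv => ?_⟩
  have hDv : MvPolynomial.aeval (Sum.elim c v) D = ∏ i, v (i, 0) := by
    rw [hD, map_prod]
    exact Finset.prod_congr rfl fun i _ => by rw [MvPolynomial.aeval_X]; rfl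
  have hD0 : (∏ i, v (i, 0)) ≠ 0 := Finset.prod_ne_zero_iff.mpr fun i _ => hv i
  clear_value N D
  have hfun : (fun j => MvPolynomial.aeval (Sum.elim c v) (N j) / MvPolynomial.aeval (Sum.elim c v) D) =
      Sum.elim c (ent (mat (c o) v)) := by
    funext j
    rw [hDv]
    rcases j with j | ⟨i, a, b⟩
    · rw [hN0, map_mul, hDv, MvPolynomial.aeval_X, mul_div_assoc, div_self hD0, mul_one, Sum.elim_inl, Sum.elim_inl]
    · have hab : (a = 0 ∧ b = 0) ∨ (a = 0 ∧ b = 1) ∨ (a = 1 ∧ b = 0) ∨ (a = 1 ∧ b = 1) := by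
        fin_cases a <;> fin_cases b <;> simp
      rcases hab with ⟨rfl, rfl⟩ | ⟨rfl, rfl⟩ | ⟨rfl, rfl⟩ | ⟨rfl, rfl⟩
      · rw [hN1, map_mul, hDv, MvPolynomial.aeval_X, mul_div_assoc, div_self hD0, mul_one, Sum.elim_inr, Sum.elim_inr]
        rfl
      · rw [hN2, map_mul, hDv, MvPolynomial.aeval_X, mul_div_assoc, div_self hD0, mul_one, Sum.elim_inr, Sum.elim_inr]
        rfl
      · rw [hN3, map_mul, hDv, MvPolynomial.aeval_X, mul_div_assoc, div_self hD0, mul_one, Sum.elim_inr, Sum.elim_inr]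
        rfl
      · have h4 : ∏ x ∈ Finset.univ.erase i, MvPolynomial.aeval (Sum.elim c v)
            (MvPolynomial.X (Sum.inr (x, 0)) : MvPolynomial (σ ⊕ Fin k × Fin 3) F) =
            ∏ x ∈ Finset.univ.erase i, v (x, 0) :=
          Finset.prod_congr rfl fun i _ => by rw [MvPolynomial.aeval_X]; rfl
        have h5 : ∏ x ∈ Finset.univ.erase i, v (x, 0) ≠ 0 := Finset.prod_ne_zero_iff.mpr fun i _ => hv i
        have h6 := hv i
        have h7 : MvPolynomial.aeval (Sum.elim c v) (MvPolynomial.X (Sum.inl o) * MvPolynomial.C (-1 / 2) +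
            MvPolynomial.X (Sum.inr (i, 2)) * MvPolynomial.X (Sum.inr (i, 1)) :
              MvPolynomial (σ ⊕ Fin k × Fin 3) F) = -(c o) / 2 + v (i, 2) * v (i, 1) := by
          rw [map_add, map_mul, map_mul, MvPolynomial.aeval_X, MvPolynomial.aeval_X, MvPolynomial.aeval_X,
            MvPolynomial.algHom_C, Sum.elim_inl, Sum.elim_inr, Sum.elim_inr, map_div₀, map_neg, map_one, map_ofNat]
          ring
        have h8 : Sum.elim c (ent (mat (c o) v)) (Sum.inr (i, 1, 1)) =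
            (-(c o) / 2 + v (i, 2) * v (i, 1)) / v (i, 0) := rfl
        rw [h8, hN4, map_mul, map_prod, h7, h4, ← Finset.mul_prod_erase Finset.univ (fun i => v (i, 0)) (Finset.mem_univ i)]
        rw [mul_comm (v (i, 0)), ← div_div, mul_div_assoc, div_self h5, mul_one]
  rw [hQv _ (by rw [hDv]; exact hD0), hDv]
  rw [hDv] at hfun
  rw [hfun]

/-- a function of the matrices with first entry different from zero -/
theorem extend {F : Type} [Field F] [Algebra F ℂ] {σ : Type} {k : ℕ} (c : σ → ℂ) (D : ℂ) (hD : D ≠ 0)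
    (P : MvPolynomial (σ ⊕ Fin k × Fin 2 × Fin 2) F)
    (h : ∀ M : Fin k → Matrix (Fin 2) (Fin 2) ℂ, (∀ i, (M i).det = D) → (∀ i, M i 0 0 ≠ 0) →
      MvPolynomial.aeval (Sum.elim c (ent M)) P = 0)
    (M : Fin k → Matrix (Fin 2) (Fin 2) ℂ) (hM : ∀ i, (M i).det = D) :
    MvPolynomial.aeval (Sum.elim c (ent M)) P = 0 := by
  set Me : ℂ → Fin k → Matrix (Fin 2) (Fin 2) ℂ := fun e i =>
    !![M i 0 0 + e * M i 1 0, M i 0 1 + e * M i 1 1; M i 1 0, M i 1 1] with hMe
  set f : ℂ → ℂ := fun e => MvPolynomial.aeval (Sum.elim c (ent (Me e))) P with hf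
  have hcont : Continuous f := by
    have h1 : Continuous fun e : ℂ => (Sum.elim c (ent (Me e)) : σ ⊕ Fin k × Fin 2 × Fin 2 → ℂ) := by
      refine continuous_pi fun j => ?_
      rcases j with j | ⟨i, a, b⟩
      · exact continuous_const
      · fin_cases a <;> fin_cases b
        · show Continuous fun e : ℂ => M i 0 0 + e * M i 1 0
          fun_prop
        · show Continuous fun e : ℂ => M i 0 1 + e * M i 1 1
          fun_prop
        · exact continuous_const
        · exact continuous_const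
    have h2 : Continuous fun v : σ ⊕ Fin k × Fin 2 × Fin 2 → ℂ => MvPolynomial.aeval v P := by
      have h3 : (fun v : σ ⊕ Fin k × Fin 2 × Fin 2 → ℂ => MvPolynomial.aeval v P) =
          fun v => MvPolynomial.eval v (MvPolynomial.map (algebraMap F ℂ) P) := by
        funext v
        rw [MvPolynomial.eval_map, MvPolynomial.aeval_def]
      rw [h3]
      exact MvPolynomial.continuous_eval _
    exact h2.comp h1
  have hev : ∀ᶠ e in 𝓝[≠] (0 : ℂ), f e = 0 := by
    have h1 : ∀ i, ∀ᶠ e in 𝓝[≠] (0 : ℂ), M i 0 0 + e * M i 1 0 ≠ 0 := by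
      intro i
      by_cases h0 : M i 0 0 = 0
      · have h2 : M i 1 0 ≠ 0 := by
          intro h3
          apply hD
          rw [← hM i, Matrix.det_fin_two, h0, h3]
          ring
        filter_upwards [self_mem_nhdsWithin] with e he
        rw [h0, zero_add]
        exact mul_ne_zero he h2
      · have h3 : Continuous fun e : ℂ => M i 0 0 + e * M i 1 0 := by fun_prop
        have h4 := h3.continuousAt (x := (0 : ℂ))
        refine nhdsWithin_le_nhds (h4.eventually_ne ?_)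
        simpa using h0
    filter_upwards [eventually_all.mpr h1] with e he
    refine h _ (fun i => ?_) (fun i => he i)
    rw [← hM i, Matrix.det_fin_two, Matrix.det_fin_two]
    show (M i 0 0 + e * M i 1 0) * M i 1 1 - (M i 0 1 + e * M i 1 1) * M i 1 0 = _
    ring
  have h5 : Tendsto f (𝓝[≠] 0) (𝓝 (f 0)) := hcont.continuousAt.tendsto.mono_left nhdsWithin_le_nhds
  have h6 : Tendsto f (𝓝[≠] 0) (𝓝 0) := (tendsto_congr' hev).mpr tendsto_const_nhds
  have h7 := tendsto_nhds_unique h5 h6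
  have h8 : Me 0 = M := by
    funext i
    ext a b
    fin_cases a <;> fin_cases b <;> simp [hMe]
  rw [← h7, hf]
  simp only [h8]

/-- the period matrix -/
noncomputable def pm (x : ℝ) : Matrix (Fin 2) (Fin 2) ℂ :=
  !![(KK x : ℂ), (KK (1 - x) : ℂ); (EE x : ℂ), (KK (1 - x) : ℂ) - (EE (1 - x) : ℂ)]

theorem KK_pos {x : ℝ} (h0 : 0 < x) (h1 : x < 1) : 0 < KK x := by
  unfold KK
  have hp : ∀ θ : ℝ, 0 < 1 - x * Real.sin θ ^ 2 := by
    intro θ
    nlinarith [Real.sin_sq_le_one θ]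
  refine intervalIntegral.intervalIntegral_pos_of_pos ?_ (fun θ => ?_) (by positivity)
  · refine Continuous.intervalIntegrable ?_ _ _
    refine continuous_const.div (by fun_prop) fun θ => ?_
    exact (Real.sqrt_pos.mpr (hp θ)).ne'
  · exact one_div_pos.mpr (Real.sqrt_pos.mpr (hp θ))

theorem pm_mat {k : ℕ} {x : Fin k → ℝ} (hx : ∀ i, 0 < x i ∧ x i < 1) :
    (fun i => pm (x i)) = mat (Real.pi : ℂ) (fun p : Fin k × Fin 3 => pr (x p.1) p.2) := by
  funext i
  have h1 := Pool.Agent.TH659.AQ.legHalf (x i) (hx i).1 (hx i).2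
  have h2 : (KK (x i) : ℂ) ≠ 0 := by
    exact_mod_cast (KK_pos (hx i).1 (hx i).2).ne'
  have h3 : (KK (x i) : ℂ) * (EE (1 - x i) : ℂ) + (EE (x i) : ℂ) * (KK (1 - x i) : ℂ) -
      (KK (x i) : ℂ) * (KK (1 - x i) : ℂ) = (Real.pi : ℂ) / 2 := by
    rw [show ((Real.pi : ℂ) / 2) = ((Real.pi / 2 : ℝ) : ℂ) by push_cast; rfl, ← h1]
    push_cast
    rfl
  have h4 : (KK (1 - x i) : ℂ) - (EE (1 - x i) : ℂ) =
      (-(Real.pi : ℂ) / 2 + (KK (1 - x i) : ℂ) * (EE (x i) : ℂ)) / (KK (x i) : ℂ) := by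
    rw [eq_div_iff h2, neg_div, ← h3]
    ring
  show !![(KK (x i) : ℂ), (KK (1 - x i) : ℂ); (EE (x i) : ℂ), (KK (1 - x i) : ℂ) - (EE (1 - x i) : ℂ)] =
    !![(KK (x i) : ℂ), (KK (1 - x i) : ℂ); (EE (x i) : ℂ),
      (-(Real.pi : ℂ) / 2 + (KK (1 - x i) : ℂ) * (EE (x i) : ℂ)) / (KK (x i) : ℂ)]
  rw [h4]

/-- all relations between the constants and the entries hold on the torsor -/
theorem stmt {υ : Type} {k δ : ℕ} (c : Option υ → ℂ) (hc : c none = (Real.pi : ℂ)) {x : Fin k → ℝ}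
    (hx : ∀ i, 0 < x i ∧ x i < 1) (h : ¬ RelK ((k + 1) * δ) c (fun p : Fin k × Fin 3 => pr (x p.1) p.2))
    (F : IntermediateField ℚ ℂ) (hF : FiniteDimensional ℚ F) (hFd : finrank ℚ F ≤ δ)
    (P : MvPolynomial (Option υ ⊕ Fin k × Fin 2 × Fin 2) F) (hP : P.totalDegree ≤ δ)
    (h0 : MvPolynomial.aeval (Sum.elim c (ent fun i => pm (x i))) P = 0)
    (M : Fin k → Matrix (Fin 2) (Fin 2) ℂ) (hM : ∀ i, (M i).det = -(Real.pi : ℂ) / 2) :
    MvPolynomial.aeval (Sum.elim c (ent M)) P = 0 := by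
  have hpi : (-(Real.pi : ℂ) / 2) ≠ 0 := by
    have : (Real.pi : ℂ) ≠ 0 := by exact_mod_cast Real.pi_ne_zero
    exact div_ne_zero (neg_ne_zero.mpr this) two_ne_zero
  obtain ⟨Q, hQ, hQv⟩ := hom (none : Option υ) P hP
  have h1 : MvPolynomial.aeval (Sum.elim c (fun p : Fin k × Fin 3 => pr (x p.1) p.2)) Q = 0 := by
    rw [hQv c _ (fun i => ?_), hc, ← pm_mat hx, h0, mul_zero]
    show (KK (x i) : ℂ) ≠ 0
    exact_mod_cast (KK_pos (hx i).1 (hx i).2).ne'
  have h2 : MvPolynomial.aeval (Sum.elim (fun j => MvPolynomial.C (c j)) MvPolynomial.X) Q =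
      (0 : MvPolynomial (Fin k × Fin 3) ℂ) := by
    by_contra hne
    refine h ⟨F, hF, hFd.trans ?_, Q, hQ, h1, hne⟩
    exact Nat.le_mul_of_pos_left _ (Nat.succ_pos k)
  have h3 : ∀ v : Fin k × Fin 3 → ℂ, MvPolynomial.aeval (Sum.elim c v) Q = 0 := by
    intro v
    have h4 := congrArg (MvPolynomial.aeval v : MvPolynomial (Fin k × Fin 3) ℂ →ₐ[ℂ] ℂ) h2
    rw [map_zero] at h4
    rw [← h4]
    have h5 : (MvPolynomial.aeval (Sum.elim c v) : MvPolynomial (Option υ ⊕ Fin k × Fin 3) F →ₐ[F] ℂ) =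
        ((MvPolynomial.aeval v : MvPolynomial (Fin k × Fin 3) ℂ →ₐ[ℂ] ℂ).restrictScalars F).comp
        (MvPolynomial.aeval (Sum.elim (fun j => MvPolynomial.C (c j)) MvPolynomial.X)) := by
      refine MvPolynomial.algHom_ext fun i => ?_
      rcases i with i | i <;> simp
    rw [h5]
    rfl
  refine extend c _ hpi P (fun N hN hN0 => ?_) M hM
  have h6 := hQv c (fst3 N) (fun i => hN0 i)
  rw [h3] at h6
  have h7 : mat (c none) (fst3 N) = N := by
    funext i
    exact mat_fst3 i (hN0 i) (by rw [hN i, hc])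
  rw [h7] at h6
  have h8 : (∏ i, fst3 N (i, 0)) ≠ 0 := Finset.prod_ne_zero_iff.mpr fun i _ => hN0 i
  rcases mul_eq_zero.mp h6.symm with h9 | h9
  · exact absurd h9 (pow_ne_zero _ h8)
  · exact h9

/-- relations which do not contain the constants -/
theorem pure {k δ : ℕ} (F : IntermediateField ℚ ℂ) (hF : FiniteDimensional ℚ F)
    (P : MvPolynomial (Fin k × Fin 2 × Fin 2) F) (hP : P.totalDegree ≤ δ)
    (h0 : ∀ M : Fin k → Matrix (Fin 2) (Fin 2) ℂ, (∀ i, (M i).det = -(Real.pi : ℂ) / 2) →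
      MvPolynomial.aeval (ent M) P = 0)
    (M : Fin k → Matrix (Fin 2) (Fin 2) ℂ) (D : ℂ) (hD : D ≠ 0) (hM : ∀ i, (M i).det = D) :
    MvPolynomial.aeval (ent M) P = 0 := by
  classical
  have hren : ∀ (c : Fin 1 → ℂ) (N : Fin k → Matrix (Fin 2) (Fin 2) ℂ),
      MvPolynomial.aeval (Sum.elim c (ent N)) (MvPolynomial.rename Sum.inr P) = MvPolynomial.aeval (ent N) P := by
    intro c N
    rw [MvPolynomial.aeval_rename]
    rfl
  obtain ⟨Q, -, hQv⟩ := hom (0 : Fin 1) (MvPolynomial.rename (Sum.inr : _ → Fin 1 ⊕ Fin k × Fin 2 × Fin 2) P)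
    ((MvPolynomial.totalDegree_rename_le _ _).trans hP)
  have h1 : ∀ v : Fin k × Fin 3 → ℂ, (∀ i, v (i, 0) ≠ 0) →
      MvPolynomial.aeval (Sum.elim (fun _ : Fin 1 => (Real.pi : ℂ)) v) Q = 0 := by
    intro v hv
    rw [hQv _ v hv, hren, h0 _ (fun i => mat_det (hv i)), mul_zero]
  have h2 : MvPolynomial.aeval (Sum.elim (fun _ : Fin 1 => MvPolynomial.C (Real.pi : ℂ)) MvPolynomial.X) Q =
      (0 : MvPolynomial (Fin k × Fin 3) ℂ) := by
    have h3 : MvPolynomial.aeval (Sum.elim (fun _ : Fin 1 => MvPolynomial.C (Real.pi : ℂ)) MvPolynomial.X) Q *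
        ∏ i : Fin k, MvPolynomial.X (i, 0) = (0 : MvPolynomial (Fin k × Fin 3) ℂ) := by
      refine MvPolynomial.funext fun v => ?_
      rw [map_mul, map_prod, map_zero]
      by_cases hv : ∀ i, v (i, 0) ≠ 0
      · have h4 : MvPolynomial.eval v (MvPolynomial.aeval (Sum.elim (fun _ : Fin 1 => MvPolynomial.C (Real.pi : ℂ))
            MvPolynomial.X) Q) = MvPolynomial.aeval (Sum.elim (fun _ : Fin 1 => (Real.pi : ℂ)) v) Q := by
          have h5 : (MvPolynomial.aeval (Sum.elim (fun _ : Fin 1 => (Real.pi : ℂ)) v) :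
              MvPolynomial (Fin 1 ⊕ Fin k × Fin 3) F →ₐ[F] ℂ) =
              ((MvPolynomial.aeval v : MvPolynomial (Fin k × Fin 3) ℂ →ₐ[ℂ] ℂ).restrictScalars F).comp
              (MvPolynomial.aeval (Sum.elim (fun _ : Fin 1 => MvPolynomial.C (Real.pi : ℂ)) MvPolynomial.X)) := by
            refine MvPolynomial.algHom_ext fun i => ?_
            rcases i with i | i <;> simp
          rw [h5]
          rfl
        rw [h4, h1 v hv, zero_mul]
      · push Not at hv
        obtain ⟨i, hi⟩ := hv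
        have h6 : ∏ i, MvPolynomial.eval v (MvPolynomial.X (i, 0) : MvPolynomial (Fin k × Fin 3) ℂ) = 0 :=
          Finset.prod_eq_zero (Finset.mem_univ i) (by rw [MvPolynomial.eval_X, hi])
        rw [h6, mul_zero]
    rcases mul_eq_zero.mp h3 with h4 | h4
    · exact h4
    · exfalso
      rw [Finset.prod_eq_zero_iff] at h4
      obtain ⟨i, -, hi⟩ := h4
      exact MvPolynomial.X_ne_zero _ hi
  have h3 : Q = 0 := inj_subK (fun _ : Fin 1 => (Real.pi : ℂ)) (pi_indep F hF) Q h2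
  have h4 := extend (fun _ : Fin 1 => -2 * D) D hD (MvPolynomial.rename (Sum.inr : _ → Fin 1 ⊕ Fin k × Fin 2 × Fin 2) P)
    (fun N hN hN0 => by
      have h5 := hQv (fun _ => -2 * D) (fst3 N) (fun i => hN0 i)
      rw [h3, map_zero] at h5
      have h7 : mat (-2 * D) (fst3 N) = N := by
        funext i
        exact mat_fst3 i (hN0 i) (by rw [hN i]; ring)
      rw [h7] at h5
      have h8 : (∏ i, fst3 N (i, 0)) ≠ 0 := Finset.prod_ne_zero_iff.mpr fun i _ => hN0 i
      rcases mul_eq_zero.mp h5.symm with h9 | h9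
      · exact absurd h9 (pow_ne_zero _ h8)
      · exact h9) M hM
  rw [hren] at h4
  exact h4

end Pool.Agent.D0H75.LS
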