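import Pool.Agent.R351.GD.L.Win

/-!
# Legendre functions at `g x`: the base families are G-systems
-/

set_option autoImplicit false

open PowerSeries

namespace Pool.Agent.D0H75.LS

open Pool.Agent.Y113

/-- the substitution of `g x` for `x` -/
noncomputable def rs (g : ℕ) : ℚ⟦X⟧ →+* ℚ⟦X⟧ := rescale (g : ℚ)

theorem coeff_rs (g m : ℕ) (f : ℚ⟦X⟧) : coeff m (rs g f) = (g : ℚ) ^ m * coeff m f := coeff_rescale _ _ _

theorem rs_X (g : ℕ) : rs g X = (g : ℚ⟦X⟧) * X := by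
  ext m
  rw [coeff_rs, ← map_natCast (C : ℚ →+* ℚ⟦X⟧), coeff_C_mul, coeff_X]
  split_ifs with h
  · rw [h]; ring
  · simp

theorem rs_der (g : ℕ) (f : ℚ⟦X⟧) : d⁄dX ℚ (rs g f) = (g : ℚ⟦X⟧) * rs g (d⁄dX ℚ f) := by
  ext m
  rw [coeff_derivative, coeff_rs, ← map_natCast (C : ℚ →+* ℚ⟦X⟧), coeff_C_mul, coeff_rs, coeff_derivative]
  ring

/-- the four functions at `g x` -/
noncomputable def fr (g : ℕ) (i : Fin 4) : ℚ⟦X⟧ := rs g (four 0 i)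

/-- the base family -/
noncomputable def bs (g : ℕ) (i : Fin 5) : ℚ⟦X⟧ := rs g (base 0 i)

theorem bs_zero (g : ℕ) : bs g 0 = 1 := by
  show rs g 1 = 1
  exact map_one _

theorem bs_eq (g : ℕ) : bs g = ![1, fr g 0, fr g 1, fr g 2, fr g 3] := by
  funext i
  fin_cases i
  · exact bs_zero g
  · rfl
  · rfl
  · rfl
  · rfl

/-- the denominator without the factor `x` -/
noncomputable def TS1 (g : ℕ) : Polynomial ℤ := Polynomial.C 2 * (1 - Polynomial.C (g : ℤ) * Polynomial.X)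

/-- the denominator -/
noncomputable def TS (g : ℕ) : Polynomial ℤ := Polynomial.X * TS1 g

/-- the matrix of the system -/
noncomputable def AS (g : ℕ) : Fin 2 → Fin 2 → Polynomial ℤ :=
  ![![Polynomial.C (-1) * (1 - Polynomial.C (g : ℤ) * Polynomial.X), 1],
    ![Polynomial.C (-1) * (1 - Polynomial.C (g : ℤ) * Polynomial.X), 1 - Polynomial.C (g : ℤ) * Polynomial.X]]

theorem ps_lin (g : ℕ) : ps (1 - Polynomial.C (g : ℤ) * Polynomial.X) = 1 - (g : ℚ⟦X⟧) * X := by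
  rw [ps_sub, ps_mul, ps_C, ps_X, ps_one]
  push_cast
  rfl

theorem ps_TS (g : ℕ) : ps (TS g) = 2 * X * (1 - (g : ℚ⟦X⟧) * X) := by
  unfold TS TS1
  rw [ps_mul, ps_mul, ps_X, ps_C, ps_lin]
  push_cast
  ring

/-- the relation and the differential equations -/
theorem ode (g : ℕ) : fr g 0 * fr g 3 - fr g 1 * fr g 2 = -1 ∧
    ps (TS g) * d⁄dX ℚ (fr g 0) = - (1 - (g : ℚ⟦X⟧) * X) * fr g 0 + fr g 1 ∧
    ps (TS g) * d⁄dX ℚ (fr g 1) = - (1 - (g : ℚ⟦X⟧) * X) * fr g 0 + (1 - (g : ℚ⟦X⟧) * X) * fr g 1 ∧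
    ps (TS g) * d⁄dX ℚ (fr g 2) = - (1 - (g : ℚ⟦X⟧) * X) * fr g 2 + fr g 3 + (1 - (g : ℚ⟦X⟧) * X) * fr g 0 ∧
    ps (TS g) * d⁄dX ℚ (fr g 3) = - (1 - (g : ℚ⟦X⟧) * X) * fr g 2 + (1 - (g : ℚ⟦X⟧) * X) * fr g 3 +
      (1 - (g : ℚ⟦X⟧) * X) * fr g 1 := by
  obtain ⟨h0, h1, h2, h3, h4⟩ := Pool.Agent.Y37.GF.t_ode 0
  rw [Pool.Agent.Y37.GF.ps_TT] at h1 h2 h3 h4
  have e0 := congrArg (rs g) h0
  have e1 := congrArg (rs g) h1
  have e2 := congrArg (rs g) h2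
  have e3 := congrArg (rs g) h3
  have e4 := congrArg (rs g) h4
  have hc : ((0 : ℕ) : ℚ⟦X⟧) = 0 := Nat.cast_zero
  simp only [hc, map_mul, map_sub, map_add, map_neg, map_one, map_ofNat, map_zero, zero_mul, sub_zero, mul_one,
    one_mul, zero_add, rs_X] at e0 e1 e2 e3 e4
  rw [ps_TS]
  unfold fr
  rw [rs_der, rs_der, rs_der, rs_der]
  have i0 : four 0 0 = uu 0 := rfl
  have i1 : four 0 1 = vv 0 := rfl
  have i2 : four 0 2 = ww 0 := rfl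
  have i3 : four 0 3 = xx 0 := rfl
  rw [i0, i1, i2, i3]
  refine ⟨?_, ?_, ?_, ?_, ?_⟩
  · linear_combination e0
  · linear_combination e1
  · linear_combination e2
  · linear_combination e3
  · linear_combination e4

theorem Bd_TS (g : ℕ) : Bd 2 (((g : ℝ) + 2) ^ 5) (TS1 g) ∧ Bd 3 (((g : ℝ) + 2) ^ 5) (Polynomial.X * TS1 g) ∧
    ∀ i j, Bd 2 (((g : ℝ) + 2) ^ 5) (AS g i j) := by
  have hg : (0 : ℝ) ≤ g := by positivity
  have hg2 : (2 : ℝ) ≤ (g : ℝ) + 2 := by linarith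
  have h1 : Bd 1 ((g : ℝ) + 2) (1 - Polynomial.C (g : ℤ) * Polynomial.X) := by
    refine Bd.lin _ _ (by linarith) ?_
    push_cast
    rw [abs_of_nonneg hg]
    linarith
  have h3 : Bd 1 (2 * ((g : ℝ) + 2)) (TS1 g) := by
    have h := h1.C_mul (c := 2) (B := 2) (by norm_num)
    exact h
  have hX : Bd 1 1 (Polynomial.X : Polynomial ℤ) := by
    refine ⟨Polynomial.natDegree_X_le, fun l => ?_⟩
    rw [Polynomial.coeff_X]
    split_ifs <;> simp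
  have h4 : Bd 2 ((1 + 1) * (1 * (2 * ((g : ℝ) + 2)))) (Polynomial.X * TS1 g) := by
    have h := hX.mul h3
    push_cast at h
    exact h
  have h5 : Bd 1 (1 * ((g : ℝ) + 2)) (Polynomial.C (-1) * (1 - Polynomial.C (g : ℤ) * Polynomial.X)) :=
    h1.C_mul (c := -1) (B := 1) (by norm_num)
  have h6 : Bd 0 1 (1 : Polynomial ℤ) := by
    refine ⟨by simp, fun l => ?_⟩
    rw [Polynomial.coeff_one]
    split_ifs <;> simp
  have e4 : (16 : ℝ) ≤ ((g : ℝ) + 2) ^ 4 := by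
    calc (16 : ℝ) = 2 ^ 4 := by norm_num
      _ ≤ _ := pow_le_pow_left₀ (by norm_num) hg2 _
  have e5 : ((g : ℝ) + 2) ^ 5 = ((g : ℝ) + 2) ^ 4 * ((g : ℝ) + 2) := by ring
  have hpos : 0 ≤ (g : ℝ) + 2 := by positivity
  have e6 : 16 * ((g : ℝ) + 2) ≤ ((g : ℝ) + 2) ^ 5 := by rw [e5]; nlinarith
  refine ⟨h3.mono (by omega) (by linarith), h4.mono (by omega) (by linarith), ?_⟩
  intro i j
  fin_cases i <;> fin_cases j
  · exact h5.mono (by omega) (by linarith)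
  · exact h6.mono (by omega) (by linarith)
  · exact h5.mono (by omega) (by linarith)
  · exact h1.mono (by omega) (by linarith)

/-- sizes and denominators -/
theorem sd : ∃ E : ℕ, ∀ g : ℕ,
    (∀ i m, |((coeff m (bs g i) : ℚ) : ℝ)| ≤ (((g : ℝ) + 2) ^ E) ^ (m + 1)) ∧
    (∀ m, ∃ d : ℕ, 0 < d ∧ (d : ℝ) ≤ (((g : ℝ) + 2) ^ E) ^ (m + 1) ∧ ∀ i, ∀ j ≤ m, ∃ a : ℤ,
      (d : ℚ) * coeff j (bs g i) = a) := by
  obtain ⟨E₀, hE₀⟩ := t_sd
  obtain ⟨hsz, hden⟩ := hE₀ 0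
  rw [Nat.cast_zero, zero_add] at hsz hden
  refine ⟨E₀ + 1, fun g => ⟨fun i m => ?_, fun m => ?_⟩⟩
  · have hg : (0 : ℝ) ≤ g := by positivity
    have h1 := hsz i m
    show |((coeff m (rs g (base 0 i)) : ℚ) : ℝ)| ≤ _
    rw [coeff_rs]
    push_cast
    rw [abs_mul, abs_of_nonneg (by positivity)]
    calc (g : ℝ) ^ m * |((coeff m (base 0 i) : ℚ) : ℝ)| ≤ ((g : ℝ) + 2) ^ (m + 1) * (((g : ℝ) + 2) ^ E₀) ^ (m + 1) := by
          refine mul_le_mul ?_ (h1.trans ?_) (abs_nonneg _) (by positivity)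
          · calc (g : ℝ) ^ m ≤ ((g : ℝ) + 2) ^ m := pow_le_pow_left₀ hg (by linarith) _
              _ ≤ _ := pow_le_pow_right₀ (by linarith) (by omega)
          · exact pow_le_pow_left₀ (by positivity) (pow_le_pow_left₀ (by norm_num) (by linarith) _) _
      _ = _ := by
        rw [← mul_pow, ← pow_succ']
  · obtain ⟨d, hd0, hd, hd'⟩ := hden m
    have hg : (0 : ℝ) ≤ g := by positivity
    refine ⟨d, hd0, hd.trans ?_, fun i j hj => ?_⟩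
    · refine pow_le_pow_left₀ (by positivity) ?_ _
      calc (2 : ℝ) ^ E₀ ≤ ((g : ℝ) + 2) ^ E₀ := pow_le_pow_left₀ (by norm_num) (by linarith) _
        _ ≤ _ := pow_le_pow_right₀ (by linarith) (by omega)
    · obtain ⟨a, ha⟩ := hd' i j hj
      refine ⟨g ^ j * a, ?_⟩
      show (d : ℚ) * coeff j (rs g (base 0 i)) = _
      rw [coeff_rs]
      push_cast
      rw [← ha]
      ring

/-- the base family is a G-system -/
theorem bs_sys : ∃ E : ℕ, ∀ g : ℕ, GSys 3 (((g : ℝ) + 2) ^ E) (TS g) (bs g) := by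
  obtain ⟨E₀, hE₀⟩ := sd
  refine ⟨31 + 8 * E₀, fun g => ?_⟩
  obtain ⟨hsz, hden⟩ := hE₀ g
  obtain ⟨hdet, hu, hv, hw, hx⟩ := ode g
  obtain ⟨hB1, hB2, hB3⟩ := Bd_TS g
  have hg1 := one_le_base g
  have hg0 : (0 : ℝ) ≤ g := by positivity
  set C := ((g : ℝ) + 2) ^ (31 + 8 * E₀) with hC
  have hC1 : 1 ≤ C := one_le_pow₀ hg1
  have hCE : ((g : ℝ) + 2) ^ E₀ ≤ C := base_mono hg1 (by omega)
  have e1 := ps_lin g
  have e3 : ps (Polynomial.C (-1) * (1 - Polynomial.C (g : ℤ) * Polynomial.X)) = - (1 - (g : ℚ⟦X⟧) * X) := by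
    rw [ps_mul, e1, ps_C]
    push_cast
    ring
  have e4 : PowerSeries.C (1 / 2 : ℚ) * ps (TS1 g) = 1 - (g : ℚ⟦X⟧) * X := by
    unfold TS1
    rw [ps_mul, e1, ps_C]
    have : PowerSeries.C (1 / 2 : ℚ) * ((2 : ℤ) : ℚ⟦X⟧) = 1 := by
      have h2 : ((2 : ℤ) : ℚ⟦X⟧) = PowerSeries.C (((2 : ℤ) : ℚ)) := (map_intCast _ _).symm
      rw [h2, ← map_mul]
      norm_num
    rw [← mul_assoc, this, one_mul]
  have hY : ∀ i : Fin 2, ps (Polynomial.X * TS1 g) * d⁄dX ℚ ((![fr g 0, fr g 1] : Fin 2 → ℚ⟦X⟧) i) =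
      ∑ j, ps (AS g i j) * (![fr g 0, fr g 1] : Fin 2 → ℚ⟦X⟧) j := by
    intro i
    rw [Fin.sum_univ_two]
    fin_cases i
    · show ps (TS g) * d⁄dX ℚ (fr g 0) = ps (Polynomial.C (-1) * (1 - Polynomial.C (g : ℤ) * Polynomial.X)) * fr g 0 +
        ps 1 * fr g 1
      rw [e3, ps_one, hu, one_mul]
    · show ps (TS g) * d⁄dX ℚ (fr g 1) = ps (Polynomial.C (-1) * (1 - Polynomial.C (g : ℤ) * Polynomial.X)) * fr g 0 +
        ps (1 - Polynomial.C (g : ℤ) * Polynomial.X) * fr g 1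
      rw [e3, e1, hv]
  have hW : ∀ i : Fin 2, ps (Polynomial.X * TS1 g) * d⁄dX ℚ ((![fr g 2, fr g 3] : Fin 2 → ℚ⟦X⟧) i) =
      ∑ j, ps (AS g i j) * (![fr g 2, fr g 3] : Fin 2 → ℚ⟦X⟧) j +
      PowerSeries.C (1 / 2 : ℚ) * (ps (TS1 g) * (![fr g 0, fr g 1] : Fin 2 → ℚ⟦X⟧) i) := by
    intro i
    rw [Fin.sum_univ_two]
    fin_cases i
    · show ps (TS g) * d⁄dX ℚ (fr g 2) = ps (Polynomial.C (-1) * (1 - Polynomial.C (g : ℤ) * Polynomial.X)) * fr g 2 +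
        ps 1 * fr g 3 + PowerSeries.C (1 / 2 : ℚ) * (ps (TS1 g) * fr g 0)
      rw [e3, ps_one, hw, one_mul, ← mul_assoc, e4]
    · show ps (TS g) * d⁄dX ℚ (fr g 3) = ps (Polynomial.C (-1) * (1 - Polynomial.C (g : ℤ) * Polynomial.X)) * fr g 2 +
        ps (1 - Polynomial.C (g : ℤ) * Polynomial.X) * fr g 3 + PowerSeries.C (1 / 2 : ℚ) * (ps (TS1 g) * fr g 1)
      rw [e3, e1, hx, ← mul_assoc, e4]
  have hdd : ∀ m : ℕ, ∃ d : ℕ, 0 < d ∧ (d : ℝ) ≤ (((g : ℝ) + 2) ^ E₀) ^ (m + 1) ∧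
      (∀ i, IS m d ((![fr g 0, fr g 1] : Fin 2 → ℚ⟦X⟧) i)) ∧ (∀ i, IS m d ((![fr g 2, fr g 3] : Fin 2 → ℚ⟦X⟧) i)) := by
    intro m
    obtain ⟨d, hd0, hd, hd'⟩ := hden m
    refine ⟨d, hd0, hd, fun i => ?_, fun i => ?_⟩
    · fin_cases i
      · exact hd' 1
      · exact hd' 2
    · fin_cases i
      · exact hd' 3
      · exact hd' 4
  have hdet' : (![fr g 0, fr g 1] : Fin 2 → ℚ⟦X⟧) 0 * (![fr g 2, fr g 3] : Fin 2 → ℚ⟦X⟧) 1 -
      (![fr g 0, fr g 1] : Fin 2 → ℚ⟦X⟧) 1 * (![fr g 2, fr g 3] : Fin 2 → ℚ⟦X⟧) 0 = -1 := hdet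
  have hmain := der_of (B := ((g : ℝ) + 2) ^ 5) (C₀ := ((g : ℝ) + 2) ^ E₀) (one_le_pow₀ hg1) (one_le_pow₀ hg1)
    hB2 hB1 hB3 hY hW hdet' hdd
  have hbound : 2 ^ 26 * ((g : ℝ) + 2) ^ 5 * (((g : ℝ) + 2) ^ E₀) ^ 8 ≤ C := by
    rw [hC, show 31 + 8 * E₀ = 26 + 5 + E₀ * 8 by ring, pow_add, pow_add, pow_mul]
    have := two_pow_le g 26
    gcongr
  refine ⟨hC1, ?_, fun l => ?_, fun i m => ?_, fun m => ?_, fun k => ?_⟩
  · exact hB2.1
  · exact (hB2.2 l).trans (base_mono hg1 (by omega))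
  · exact (hsz i m).trans (pow_le_pow_left₀ (by positivity) hCE _)
  · obtain ⟨d, hd0, hd, hd'⟩ := hden m
    exact ⟨d, hd0, hd.trans (pow_le_pow_left₀ (by positivity) hCE _), hd'⟩
  · obtain ⟨G, hG0, hG, hG'⟩ := hmain k
    refine ⟨G, hG0, hG.trans (pow_le_pow_left₀ (by positivity) hbound _), fun s hs => ?_⟩
    obtain ⟨M, h1, h2, h3⟩ := hG' s hs
    refine ⟨M, h1, fun i j l => (h2 i j l).trans (pow_le_pow_left₀ (by positivity) hbound _), fun i => ?_⟩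
    have h4 := h3 i
    rw [bs_eq]
    exact h4

end Pool.Agent.D0H75.LS
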