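import Pool.Agent.D0H75.LS.Base

/-!
# Legendre functions at `g x`: the G-systems of the monomials, with exponents which are polynomial in the degree
-/

set_option autoImplicit false

open PowerSeries

namespace Pool.Agent.D0H75.LS

open Pool.Agent.Y113 Pool.Agent.R351.GD

/-- monomials in the four functions at `g x` -/
noncomputable def mn {Δ : ℕ} (g : ℕ) (e : Ex Δ) : ℚ⟦X⟧ := ∏ i, fr g i ^ (e.1 i : ℕ)

/-- products of monomials -/
noncomputable def pmn {k Δ : ℕ} (g : Fin k → ℕ) (b : Fin k → Ex Δ) : ℚ⟦X⟧ := ∏ l, mn (g l) (b l)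

/-- the product of the denominators -/
noncomputable def PS {k : ℕ} (g : Fin k → ℕ) : Polynomial ℤ := ∏ l, TS (g l)

/-- all products of `Δ` functions of the base family -/
theorem wrd {g : ℕ} {C : ℝ} (h : GSys 3 C (TS g) (bs g)) (Δ : ℕ) :
    GSys 3 ((2 ^ 4 * C) ^ Δ * C) (TS g) (fun f : Fin Δ → Fin 5 => ∏ i, bs g (f i)) := by
  induction Δ with
  | zero =>
    have h1 := GSys.const (ι := Fin 0 → Fin 5) h.one_le h.degT h.sizeT
    simpa using h1
  | succ Δ ih =>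
    have h3 := prod_asym h ih
    have h4 := h3.reindex (Fin.consEquiv fun _ => Fin 5).symm
    have h5 : (fun f : Fin (Δ + 1) → Fin 5 => ∏ i, bs g (f i)) = fun j =>
        bs g ((Fin.consEquiv fun _ => Fin 5).symm j).1 * ∏ i, bs g (((Fin.consEquiv fun _ => Fin 5).symm j).2 i) := by
      funext f
      rw [Fin.prod_univ_succ]
      rfl
    rw [h5]
    refine h4.mono le_rfl (le_of_eq ?_)
    rw [pow_succ]
    ring

theorem bs_cons (g : ℕ) : bs g = (Fin.cons (1 : ℚ⟦X⟧) (fr g) : Fin 5 → ℚ⟦X⟧) := by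
  funext i
  refine Fin.cases ?_ (fun i => ?_) i
  · rw [Fin.cons_zero]
    exact bs_zero g
  · rw [Fin.cons_succ]
    rw [bs_eq]
    fin_cases i <;> rfl

/-- the monomials in the four functions form a G-system -/
theorem mn4 {g : ℕ} {C : ℝ} (h : GSys 3 C (TS g) (bs g)) (Δ : ℕ) :
    GSys 3 ((2 * C) ^ (9 * Δ + 1)) (TS g) (fun e : Ex Δ => mn g e) := by
  have hC := h.one_le
  have h1 := wrd h Δ
  -- the matrices
  have hM : ∀ e : Ex Δ, ∃ f : Fin Δ → Fin 5, ∏ i, bs g (f i) = mn g e := by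
    intro e
    obtain ⟨f, hf⟩ := exists_word Δ (fun i => (e.1 i : ℕ)) e.sum_le
    refine ⟨f, ?_⟩
    rw [bs_cons]
    exact hf (fr g)
  choose fM hfM using hM
  have hM' : ∀ f : Fin Δ → Fin 5, ∃ co : Ex Δ → ℤ, (∀ s, |((co s : ℤ) : ℝ)| ≤ 2 ^ Δ) ∧
      ∏ i, bs g (f i) = ∑ s : Ex Δ, (co s : ℚ⟦X⟧) * mn g s := by
    intro f
    obtain ⟨e, he, he'⟩ := word_exp Δ f
    rw [Fin.sum_univ_four] at he
    obtain ⟨co, hc, hc'⟩ := reduce Δ (e 0) (e 1) (e 2) (e 3) he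
    refine ⟨co, fun s => (hc s).trans (pow_le_pow_right₀ (by norm_num) (by omega)), ?_⟩
    have e1 : ∏ i, bs g (f i) = ∏ i, fr g i ^ e i := by
      rw [bs_cons]
      exact he' (fr g)
    rw [e1, Fin.prod_univ_four]
    refine (hc' (fr g 0) (fr g 1) (fr g 2) (fr g 3) (ode g).1).trans ?_
    refine Finset.sum_congr rfl fun s _ => ?_
    congr 1
    unfold mn
    rw [Fin.prod_univ_four]
  choose co hco hco' using hM'
  have h2 := quot2 h1 fM co (fun e => (hfM e).symm) hco' (2 ^ Δ) (2 ^ (3 * Δ)) hco (one_le_pow₀ (by norm_num))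
    (one_le_pow₀ (by norm_num)) (by
      rw [Fintype.card_fun, Fintype.card_fin, Fintype.card_fin]
      push_cast
      rw [pow_mul]
      exact pow_le_pow_left₀ (by norm_num) (by norm_num) _)
  refine h2.mono le_rfl ?_
  have h22 : (2 : ℝ) ≤ 2 * C := by linarith
  have h21 : (1 : ℝ) ≤ 2 * C := by linarith
  have hCC : C ≤ 2 * C := by linarith
  calc (2 : ℝ) ^ (3 * Δ) * 2 ^ Δ * ((2 ^ 4 * C) ^ Δ * C)
      ≤ (2 * C) ^ (3 * Δ) * (2 * C) ^ Δ * (((2 * C) ^ 4 * (2 * C)) ^ Δ * (2 * C)) := by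
        gcongr
    _ = (2 * C) ^ (9 * Δ + 1) := by
        rw [← pow_succ, ← pow_mul, ← pow_add, ← pow_succ, ← pow_add]
        congr 1
        ring

/-- the system of all monomials at several arguments -/
theorem fin_sys (k : ℕ) : ∃ q : ℕ, ∃ E : ℕ → ℕ, PB E ∧ ∀ (Δ H : ℕ) (g : Fin k → ℕ),
    (∀ l, g l ≤ H) → GSys q (((H : ℝ) + 2) ^ E Δ) (PS g) (pmn (Δ := Δ) g) := by
  obtain ⟨Eb, hEb⟩ := bs_sys
  have hE₀ : ∀ Δ g : ℕ, GSys 3 (((g : ℝ) + 2) ^ ((Eb + 1) * (9 * Δ + 1))) (TS g) (fun e : Ex Δ => mn g e) :=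
    fun Δ g => (mn4 (hEb g) Δ).mono le_rfl (pow_base g _ _)
  have hE₀p : PB fun Δ => (Eb + 1) * (9 * Δ + 1) :=
    (PB.const (Eb + 1)).mul (((PB.const 9).mul PB.id).add (PB.const 1))
  induction k with
  | zero =>
    refine ⟨0, fun _ => 0, PB.const 0, fun Δ H g _ => ?_⟩
    have h1 : GSys 0 (1 : ℝ) 1 (fun _ : Fin 0 → Ex Δ => (1 : ℚ⟦X⟧)) := by
      refine GSys.const le_rfl (by simp) fun l => ?_
      rw [Polynomial.coeff_one]
      split_ifs <;> simp
    have h2 : (pmn (Δ := Δ) g) = fun _ => 1 := by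
      funext b
      simp [pmn]
    have h3 : PS g = 1 := by simp [PS]
    rw [h2, h3]
    simpa using h1
  | succ k ih =>
    obtain ⟨q, Ek, hEkp, hEk⟩ := ih
    obtain ⟨E₁, hE₁⟩ := t_enl 3 q
    obtain ⟨E₂, hE₂⟩ := t_enl q 3
    refine ⟨q + 3, fun Δ => (q + 3 + 1) + 2 * (((Eb + 1) * (9 * Δ + 1) + Ek Δ + 1) * (E₁ + E₂)), ?_,
      fun Δ H g hg => ?_⟩
    · exact (PB.const (q + 3 + 1)).add ((PB.const 2).mul (((hE₀p.add hEkp).add (PB.const 1)).mul (PB.const (E₁ + E₂))))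
    have hE₀ := hE₀ Δ
    have hE := hEk Δ H
    set E₀ := (Eb + 1) * (9 * Δ + 1)
    set E := Ek Δ
    set E' := E₀ + E with hE'
    set E'' := (E' + 1) * (E₁ + E₂) with hE''
    have hg1 := one_le_base H
    have hgH : ((g 0 : ℕ) : ℝ) + 2 ≤ (H : ℝ) + 2 := by
      have : ((g 0 : ℕ) : ℝ) ≤ H := by exact_mod_cast hg 0
      linarith
    have h1 : GSys 3 (((H : ℝ) + 2) ^ E') (TS (g 0)) (fun e : Ex Δ => mn (g 0) e) := by
      refine (hE₀ (g 0)).mono le_rfl ?_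
      exact (pow_le_pow_left₀ (by positivity) hgH _).trans (base_mono hg1 (Nat.le_add_right _ _))
    have h2 : GSys q (((H : ℝ) + 2) ^ E') (PS fun l : Fin k => g l.succ) (pmn (Δ := Δ) fun l : Fin k => g l.succ) :=
      (hE _ fun l => hg l.succ).mono le_rfl (base_mono hg1 (Nat.le_add_left _ _))
    have h3 := hE₁ _ _ _ (PS fun l : Fin k => g l.succ) _ h1 h2.degT h2.sizeT
    have h4 := hE₂ _ _ _ (TS (g 0)) _ h2 h1.degT h1.sizeT
    have hE1 : (2 * ((H : ℝ) + 2) ^ E') ^ E₁ ≤ ((H : ℝ) + 2) ^ E'' := by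
      refine (pow_base H _ _).trans (base_mono hg1 ?_)
      exact Nat.mul_le_mul_left _ (Nat.le_add_right _ _)
    have hE2 : (2 * ((H : ℝ) + 2) ^ E') ^ E₂ ≤ ((H : ℝ) + 2) ^ E'' := by
      refine (pow_base H _ _).trans (base_mono hg1 ?_)
      exact Nat.mul_le_mul_left _ (Nat.le_add_left _ _)
    have hPT : PS g = TS (g 0) * PS (fun l : Fin k => g l.succ) := by
      simp [PS, Fin.prod_univ_succ]
    have h5 : GSys (q + 3) (((H : ℝ) + 2) ^ E'') (PS g) (fun e : Ex Δ => mn (g 0) e) := by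
      rw [hPT]
      exact h3.mono (by omega) hE1
    have h6 : GSys (q + 3) (((H : ℝ) + 2) ^ E'') (PS g) (pmn (Δ := Δ) fun l : Fin k => g l.succ) := by
      rw [hPT, mul_comm]
      exact h4.mono le_rfl hE2
    have hC' : (2 : ℝ) ^ (q + 3 + 1) * (((H : ℝ) + 2) ^ E'' * ((H : ℝ) + 2) ^ E'') ≤
        ((H : ℝ) + 2) ^ ((q + 3 + 1) + 2 * E'') := by
      rw [pow_add ((H : ℝ) + 2), two_mul E'', pow_add ((H : ℝ) + 2) E'']
      refine mul_le_mul_of_nonneg_right ?_ (by positivity)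
      exact pow_le_pow_left₀ (by norm_num) (by linarith [show (0 : ℝ) ≤ H by positivity]) _
    have h7 := (prod_asym h5 h6).mono le_rfl hC'
    have h8 := h7.reindex (Fin.consEquiv fun _ => Ex Δ).symm
    have h9 : (pmn (Δ := Δ) g) = fun j =>
        mn (g 0) ((Fin.consEquiv fun _ => Ex Δ).symm j).1 *
          pmn (Δ := Δ) (fun l : Fin k => g l.succ) ((Fin.consEquiv fun _ => Ex Δ).symm j).2 := by
      funext b
      unfold pmn
      rw [Fin.prod_univ_succ]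
      rfl
    rw [h9]
    exact h8

end Pool.Agent.D0H75.LS
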