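import Pool.Agent.D0H75.LS.LI
import Pool.Agent.R351.GD.L.Tup

/-!
# The values of the Legendre functions at `g / t`
-/

set_option autoImplicit false

open PowerSeries

namespace Pool.Agent.D0H75.LS

open Pool.Agent.Y113 Pool.Agent.R351.GD

/-- convergence -/
theorem cv_bs {E₀ g : ℕ} {t : ℝ} (hsz : ∀ i m, |((coeff m (bs g i) : ℚ) : ℝ)| ≤ (((g : ℝ) + 2) ^ E₀) ^ (m + 1))
    (ht : ((g : ℝ) + 2) ^ E₀ < t) (i : Fin 5) : Cv t (bs g i) := by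
  have ht0 : 0 < t := lt_of_le_of_lt (by positivity) ht
  refine Cv.of_bound ht0 (A := ((g : ℝ) + 2) ^ E₀) (B := ((g : ℝ) + 2) ^ E₀) (by positivity) ht fun m => ?_
  rw [← pow_succ']
  exact hsz i m

theorem cv_fr {g : ℕ} {t : ℝ} (h : ∀ i, Cv t (bs g i)) (i : Fin 4) : Cv t (fr g i) := by
  have h1 := h i.succ
  rw [bs_cons, Fin.cons_succ] at h1
  exact h1

theorem cv_mn {g δ : ℕ} {t : ℝ} (ht : 0 < t) (h : ∀ i, Cv t (bs g i)) (e : Ex δ) : Cv t (mn g e) :=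
  Cv.prod ht _ _ fun i _ => (cv_fr h i).pow ht _

theorem ev_mn {g δ : ℕ} {t : ℝ} (ht : 0 < t) (h : ∀ i, Cv t (bs g i)) (e : Ex δ) :
    ev t (mn g e) = ∏ i, ev t (fr g i) ^ (e.1 i : ℕ) := by
  unfold mn
  rw [Cv.ev_prod ht _ _ fun i _ => (cv_fr h i).pow ht _]
  exact Finset.prod_congr rfl fun i _ => Cv.ev_pow ht (cv_fr h i) _

theorem PS_ne {k : ℕ} (g : Fin k → ℕ) (t : ℕ) (H : ℕ) (hg : ∀ l, g l ≤ H) (ht : H + 2 ≤ t) :
    Polynomial.aeval (1 / (t : ℝ)) (PS g) ≠ 0 := by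
  unfold PS
  rw [map_prod, Finset.prod_ne_zero_iff]
  intro l _
  have ht' : (H : ℝ) + 2 ≤ t := by exact_mod_cast ht
  have hgl : (g l : ℝ) ≤ H := by exact_mod_cast hg l
  have ht0 : (0 : ℝ) < t := by linarith [show (0 : ℝ) ≤ H by positivity]
  simp only [TS, TS1, map_mul, map_sub, map_one, Polynomial.aeval_X, Polynomial.aeval_C]
  have h1 : (1 : ℝ) - algebraMap ℤ ℝ (g l : ℤ) * (1 / t) ≠ 0 := by
    simp only [algebraMap_int_eq, eq_intCast, Int.cast_natCast]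
    rw [mul_one_div, ne_eq, sub_eq_zero, eq_comm, div_eq_one_iff_eq ht0.ne']
    linarith
  have h2 : algebraMap ℤ ℝ 2 ≠ 0 := by simp
  have h3 : (1 / (t : ℝ)) ≠ 0 := by positivity
  exact mul_ne_zero h3 (mul_ne_zero h2 h1)

/-- the values -/
noncomputable def sv (t g : ℕ) (a : Fin 3) : ℝ := ![ev t (fr g 0), ev t (fr g 1), ev t (fr g 2)] a

theorem norel (N : ℕ) : ∃ E : ℕ → ℕ, PB E ∧ ∀ (Δ H t : ℕ), (H + 2) ^ E Δ ≤ t → ∀ g : Fin N → ℕ,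
    Function.Injective g → (∀ l, 1 ≤ g l ∧ g l ≤ H) → ∀ P : MvPolynomial (Fin N × Fin 3) ℚ, P.totalDegree ≤ Δ →
    MvPolynomial.aeval (fun x : Fin N × Fin 3 => sv t (g x.1) x.2) P = 0 → P = 0 := by
  obtain ⟨E₀, hsd⟩ := sd
  obtain ⟨q, EF, hEFp, hF⟩ := fin_sys N
  obtain ⟨EG, hEGp, hG⟩ := gof_exp Pool.Agent.Y141.GF.t_shid Pool.Agent.Y141.GF.t_loc q
  refine ⟨fun Δ => 1 + (E₀ + 1) + (EF Δ + 1) * EG (((Δ + 1) ^ 4) ^ N), ?_, fun Δ H t ht g hinj hgb P hP hP0 => ?_⟩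
  · have h1 : PB fun Δ : ℕ => ((Δ + 1) ^ 4) ^ N := ((PB.id.add (PB.const 1)).pow 4).pow N
    exact (PB.const (1 + (E₀ + 1))).add ((hEFp.add (PB.const 1)).mul (hEGp.comp h1))
  have hgH : ∀ l, g l ≤ H := fun l => (hgb l).2
  have hgp : ∀ l, 0 < g l := fun l => (hgb l).1
  have hF := hF Δ
  have hG := hG (((Δ + 1) ^ 4) ^ N)
  set EF := EF Δ
  set EG := EG (((Δ + 1) ^ 4) ^ N)
  set E := 1 + (E₀ + 1) + (EF + 1) * EG with hE
  have ht' : (H + 2) ^ E ≤ t := ht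
  have hH2 : (1 : ℝ) ≤ (H : ℝ) + 2 := one_le_base H
  have htR : ((H : ℝ) + 2) ^ E ≤ t := by exact_mod_cast ht'
  have hge : ∀ a ≤ E, ((H : ℝ) + 2) ^ a ≤ t := fun a ha => (base_mono hH2 ha).trans htR
  have ht2 : H + 2 ≤ t := by
    have h1 : H + 2 ≤ (H + 2) ^ E := Nat.le_self_pow (by omega) _
    exact h1.trans ht'
  have ht0 : (0 : ℝ) < t := by exact_mod_cast (by omega : 0 < t)
  -- convergence
  have hcv : ∀ l j, Cv t (bs (g l) j) := by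
    intro l j
    refine cv_bs (hsd (g l)).1 ?_ j
    have hgR : ((g l : ℕ) : ℝ) + 2 ≤ (H : ℝ) + 2 := by
      have : ((g l : ℕ) : ℝ) ≤ H := by exact_mod_cast hgH l
      linarith
    refine lt_of_le_of_lt (pow_le_pow_left₀ (by positivity) hgR _) ?_
    refine lt_of_lt_of_le ?_ (hge (E₀ + 1) (by rw [hE]; omega))
    exact pow_lt_pow_right₀ (by linarith [show (0 : ℝ) ≤ H by positivity]) (by omega)
  have hone : pmn (Δ := Δ) g (fun _ => ⟨fun _ => 0, by simp, Or.inl rfl⟩) = 1 := by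
    unfold pmn mn
    simp
  have hEG : (2 * ((H : ℝ) + 2) ^ EF) ^ EG ≤ t := by
    refine (pow_base H _ _).trans (hge _ ?_)
    rw [hE]
    omega
  have hcard : Fintype.card (Fin N → Ex Δ) ≤ ((Δ + 1) ^ 4) ^ N := by
    rw [Fintype.card_fun, Fintype.card_fin]
    exact Nat.pow_le_pow_left (card_Ex Δ) N
  have hind := hG (Fin N → Ex Δ) (((H : ℝ) + 2) ^ EF) (PS g) (pmn (Δ := Δ) g)
    (fun _ => ⟨fun _ => 0, by simp, Or.inl rfl⟩) t hcard (hF H g hgH) hone (lin N Δ g hinj hgp) hEG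
    (PS_ne g t H hgH ht2)
  have hind2 := hind.comp (fun s : {s // s ∈ expoI (Fin N × Fin 3) Δ} => ixk Δ s) (ixk_inj Δ)
  rw [aeval_expoQ hP] at hP0
  have h3 := Fintype.linearIndependent_iff.1 hind2 (fun s => P.coeff s.1) (by
    rw [← hP0]
    refine Finset.sum_congr rfl fun s _ => congrArg _ ?_
    show ev t (pmn (Δ := Δ) g (ixk Δ s)) = _
    unfold pmn
    rw [Cv.ev_prod ht0 _ _ fun p _ => cv_mn ht0 (hcv _) _, Fintype.prod_prod_type]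
    refine Finset.prod_congr rfl fun i _ => ?_
    rw [ev_mn ht0 (hcv i), Fin.prod_univ_four, Fin.prod_univ_three]
    obtain ⟨a0, a1, a2, a3⟩ := ixk_val Δ s i
    rw [a0, a1, a2, a3, pow_zero, mul_one]
    rfl)
  ext s
  rw [MvPolynomial.coeff_zero]
  by_contra hne
  have hs : s ∈ P.support := MvPolynomial.mem_support_iff.2 hne
  have h4 := MvPolynomial.le_totalDegree hs
  rw [deg_eqI] at h4
  exact hne (h3 ⟨s, mem_expoI.2 (h4.trans hP)⟩)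

/-- the exponents -/
noncomputable def Evs (N : ℕ) : ℕ → ℕ := (norel N).choose

theorem Evs_pb (N : ℕ) : PB (Evs N) := (norel N).choose_spec.1

theorem inp : Pool.Agent.Y916.Om.Inp Evs (fun t : ℕ => t) (fun t g (a : Fin 3) => ((sv t g a : ℝ) : ℂ)) := by
  intro N Δ H t ht g hg hgb P hP hP0
  refine (norel N).choose_spec.2 Δ H t ht g hg hgb P hP ?_
  have h3 := MvPolynomial.aeval_algebraMap_apply (A := ℝ) ℂ
    (fun x : Fin N × Fin 3 => sv t (g x.1) x.2) P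
  have h4 : MvPolynomial.aeval (fun x : Fin N × Fin 3 => (algebraMap ℝ ℂ) (sv t (g x.1) x.2)) P = 0 := hP0
  exact (algebraMap ℝ ℂ).injective ((h3.symm.trans h4).trans (map_zero _).symm)

/-- the values in terms of the periods -/
theorem vals : ∃ (α : ℝ), ∀ (g t : ℕ), 1 ≤ g → (g + 2) ^ 4 ≤ t →
    KK ((g : ℝ) / t) = Real.pi / 2 * sv t g 0 ∧ EE ((g : ℝ) / t) = Real.pi / 2 * sv t g 1 ∧
    KK (1 - (g : ℝ) / t) = sv t g 2 + (α + 1 / 2 * Real.log t - 1 / 2 * Real.log g) * sv t g 0 := by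
  obtain ⟨α, β, hβ, hleg, h⟩ := Pool.Agent.Y37.GF.values
  have hβ1 : β = 1 := by
    have h1 := hleg (1 / 2) (by norm_num) (by norm_num)
    have h2 := Pool.Agent.TH659.AQ.legHalf (1 / 2) (by norm_num) (by norm_num)
    have h3 : KK (1 / 2) * EE (1 - 1 / 2) + EE (1 / 2) * KK (1 - 1 / 2) - KK (1 / 2) * KK (1 - 1 / 2) = Real.pi / 2 := h2
    rw [h3] at h1
    have hpi := Real.pi_pos
    field_simp at h1
    linarith
  subst hβ1
  refine ⟨α, fun g t hg ht' => ?_⟩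
  have hg0 : (0 : ℝ) < g := by exact_mod_cast hg
  have ht : ((g : ℝ) + 2) ^ 4 ≤ (t : ℝ) := by exact_mod_cast ht'
  have h1 : 8 * (g : ℝ) < t := by
    have h2 : (8 : ℝ) ≤ ((g : ℝ) + 2) ^ 3 := by
      calc (8 : ℝ) = 2 ^ 3 := by norm_num
        _ ≤ ((g : ℝ) + 2) ^ 3 := pow_le_pow_left₀ (by norm_num) (by linarith) _
    have h3 : (8 : ℝ) * ((g : ℝ) + 2) ≤ ((g : ℝ) + 2) ^ 4 := by
      calc (8 : ℝ) * ((g : ℝ) + 2) ≤ ((g : ℝ) + 2) ^ 3 * ((g : ℝ) + 2) := by gcongr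
        _ = _ := by ring
    linarith
  have ht0 : (0 : ℝ) < t := by linarith
  have hz0 : (0 : ℝ) < (g : ℝ) / t := by positivity
  have hz1 : (g : ℝ) / t < 1 / (((0 : ℕ) : ℝ) + 8) := by
    rw [Nat.cast_zero, zero_add, div_lt_div_iff₀ ht0 (by norm_num)]
    linarith
  have h2 := h 0 ((g : ℝ) / t) hz0 hz1
  have hs : (g : ℝ) / t / (1 - ((0 : ℕ) : ℝ) * ((g : ℝ) / t)) = (g : ℝ) / t := by
    rw [Nat.cast_zero, zero_mul, sub_zero, div_one]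
  rw [hs] at h2
  have hE : ∀ f : ℚ⟦X⟧, Pool.Agent.Y37.GF.E f ((g : ℝ) / t) = ev t (rs g f) := by
    intro f
    rw [Pool.Agent.Y37.GF.ev_eq, E_rs, mul_one_div]
  have e0 : sv t g 0 = ev t (rs g (uu 0)) := rfl
  have e1 : sv t g 1 = ev t (rs g (vv 0)) := rfl
  have e2 : sv t g 2 = ev t (rs g (ww 0)) := rfl
  rw [Real.log_div hg0.ne' ht0.ne'] at h2
  rw [hE, hE, hE, hE] at h2
  rw [e0, e1, e2]
  refine ⟨h2.1, h2.2.1, ?_⟩
  rw [h2.2.2.1]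
  ring

end Pool.Agent.D0H75.LS
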