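import Pool.Agent.D0H75.LS.Val

/-!
# Windows of multiples: relations between the periods of the Legendre curves at `g / t`
-/

set_option autoImplicit false

open Module

namespace Pool.Agent.D0H75.LS

open Pool.Agent.Y113 Pool.Agent.R351.GD

/-- `K(x)`, `E(x)`, `K(1 - x)` -/
noncomputable def pr (x : ℝ) : Fin 3 → ℂ := ![(KK x : ℂ), (EE x : ℂ), (KK (1 - x) : ℂ)]

/-- the constants `π`, `log a_i`, `w_j` -/
noncomputable def cst {s : ℕ} {υ : Type} (a : Fin s → ℕ) (w : υ → ℂ) (o : Option (Fin s ⊕ υ)) : ℂ :=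
  o.elim (Real.pi : ℂ) (Sum.elim (fun i => ((Real.log (a i) : ℝ) : ℂ)) w)

/-- the substitution over `K` -/
noncomputable def sb {s : ℕ} {υ : Type} (K : IntermediateField ℚ ℂ) (r : ℕ) (c : Fin r → Fin s → ℚ) :
    Option (Fin s ⊕ υ) ⊕ Fin r × Fin 3 → MvPolynomial ((Option (Fin s ⊕ υ) ⊕ Unit) ⊕ Fin r × Fin 3) K :=
  Sum.elim (fun o => MvPolynomial.X (Sum.inl (Sum.inl o))) fun p =>
    ![MvPolynomial.C (1 / 2 : K) * (MvPolynomial.X (Sum.inl (Sum.inl none)) * MvPolynomial.X (Sum.inr (p.1, 0))),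
      MvPolynomial.C (1 / 2 : K) * (MvPolynomial.X (Sum.inl (Sum.inl none)) * MvPolynomial.X (Sum.inr (p.1, 1))),
      MvPolynomial.X (Sum.inr (p.1, 2)) +
        (MvPolynomial.X (Sum.inl (Sum.inr ())) -
          ∑ j, MvPolynomial.C ((c p.1 j / 2 : ℚ) : K) * MvPolynomial.X (Sum.inl (Sum.inl (some (Sum.inl j))))) *
          MvPolynomial.X (Sum.inr (p.1, 0))] p.2

theorem sb_deg {s : ℕ} {υ : Type} (K : IntermediateField ℚ ℂ) (r : ℕ) (c : Fin r → Fin s → ℚ)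
    (i : Option (Fin s ⊕ υ) ⊕ Fin r × Fin 3) : (sb (υ := υ) K r c i).totalDegree ≤ 2 := by
  have hX : ∀ u : (Option (Fin s ⊕ υ) ⊕ Unit) ⊕ Fin r × Fin 3,
      (MvPolynomial.X u : MvPolynomial ((Option (Fin s ⊕ υ) ⊕ Unit) ⊕ Fin r × Fin 3) K).totalDegree ≤ 1 := by
    intro u
    rw [MvPolynomial.totalDegree_X]
  rcases i with o | ⟨i, a⟩
  · exact (hX _).trans (by omega)
  · have h1 : ∀ u v : (Option (Fin s ⊕ υ) ⊕ Unit) ⊕ Fin r × Fin 3,
        (MvPolynomial.X u * MvPolynomial.X v :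
          MvPolynomial ((Option (Fin s ⊕ υ) ⊕ Unit) ⊕ Fin r × Fin 3) K).totalDegree ≤ 2 := by
      intro u v
      exact (MvPolynomial.totalDegree_mul _ _).trans (add_le_add (hX u) (hX v))
    have h2 : ∀ u v : (Option (Fin s ⊕ υ) ⊕ Unit) ⊕ Fin r × Fin 3,
        (MvPolynomial.C (1 / 2 : K) * (MvPolynomial.X u * MvPolynomial.X v) :
          MvPolynomial ((Option (Fin s ⊕ υ) ⊕ Unit) ⊕ Fin r × Fin 3) K).totalDegree ≤ 2 := by
      intro u v
      refine (MvPolynomial.totalDegree_mul _ _).trans ?_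
      rw [MvPolynomial.totalDegree_C, zero_add]
      exact h1 u v
    fin_cases a
    · exact h2 _ _
    · exact h2 _ _
    · refine (MvPolynomial.totalDegree_add _ _).trans (max_le ((hX _).trans (by omega)) ?_)
      refine (MvPolynomial.totalDegree_mul _ _).trans (add_le_add (?_ : _ ≤ 1) (hX _))
      refine (MvPolynomial.totalDegree_sub _ _).trans (max_le (hX _) ?_)
      refine MvPolynomial.totalDegree_finsetSum_le fun j _ => ?_
      refine (MvPolynomial.totalDegree_mul _ _).trans ?_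
      rw [MvPolynomial.totalDegree_C, zero_add]
      exact hX _

/-- the linear substitution -/
noncomputable def LL {r : ℕ} {R : Type} [CommRing R] [Algebra ℂ R] (γ : Fin r → ℂ) (z : Fin r × Fin 3 → R)
    (p : Fin r × Fin 3) : R :=
  ![algebraMap ℂ R ((Real.pi / 2 : ℝ) : ℂ) * z (p.1, 0), algebraMap ℂ R ((Real.pi / 2 : ℝ) : ℂ) * z (p.1, 1),
    z (p.1, 2) + algebraMap ℂ R (γ p.1) * z (p.1, 0)] p.2

/-- the substitution is injective -/
theorem LL_inj {r : ℕ} (γ : Fin r → ℂ) : Function.Injective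
    (MvPolynomial.aeval (R := ℂ) (LL γ (MvPolynomial.X : Fin r × Fin 3 → MvPolynomial (Fin r × Fin 3) ℂ))) := by
  have hpi : ((Real.pi / 2 : ℝ) : ℂ) ≠ 0 := by
    have := Real.pi_pos
    exact_mod_cast (by positivity : (Real.pi / 2 : ℝ) ≠ 0)
  set ϖ : ℂ := ((Real.pi / 2 : ℝ) : ℂ) with hϖ
  set L' : Fin r × Fin 3 → MvPolynomial (Fin r × Fin 3) ℂ := fun p =>
    ![MvPolynomial.C ϖ⁻¹ * MvPolynomial.X (p.1, 0), MvPolynomial.C ϖ⁻¹ * MvPolynomial.X (p.1, 1),
      MvPolynomial.X (p.1, 2) - MvPolynomial.C (γ p.1 * ϖ⁻¹) * MvPolynomial.X (p.1, 0)] p.2 with hL'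
  have h : (MvPolynomial.aeval L').comp
      (MvPolynomial.aeval (R := ℂ) (LL γ (MvPolynomial.X : Fin r × Fin 3 → MvPolynomial (Fin r × Fin 3) ℂ))) =
      AlgHom.id ℂ _ := by
    refine MvPolynomial.algHom_ext fun i => ?_
    obtain ⟨i, a⟩ := i
    rw [AlgHom.comp_apply, MvPolynomial.aeval_X, AlgHom.id_apply]
    have hc : (MvPolynomial.C ϖ : MvPolynomial (Fin r × Fin 3) ℂ) * MvPolynomial.C ϖ⁻¹ = 1 := by
      rw [← map_mul, mul_inv_cancel₀ hpi, map_one]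
    fin_cases a
    · show MvPolynomial.aeval L' (MvPolynomial.C ϖ * MvPolynomial.X (i, 0)) = MvPolynomial.X (i, 0)
      rw [map_mul, MvPolynomial.aeval_X, MvPolynomial.aeval_C]
      show MvPolynomial.C ϖ * (MvPolynomial.C ϖ⁻¹ * MvPolynomial.X (i, 0)) = _
      rw [← mul_assoc, hc, one_mul]
    · show MvPolynomial.aeval L' (MvPolynomial.C ϖ * MvPolynomial.X (i, 1)) = MvPolynomial.X (i, 1)
      rw [map_mul, MvPolynomial.aeval_X, MvPolynomial.aeval_C]
      show MvPolynomial.C ϖ * (MvPolynomial.C ϖ⁻¹ * MvPolynomial.X (i, 1)) = _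
      rw [← mul_assoc, hc, one_mul]
    · show MvPolynomial.aeval L' (MvPolynomial.X (i, 2) + MvPolynomial.C (γ i) * MvPolynomial.X (i, 0)) =
        MvPolynomial.X (i, 2)
      rw [map_add, map_mul, MvPolynomial.aeval_X, MvPolynomial.aeval_X, MvPolynomial.aeval_C]
      show (MvPolynomial.X (i, 2) - MvPolynomial.C (γ i * ϖ⁻¹) * MvPolynomial.X (i, 0)) +
        MvPolynomial.C (γ i) * (MvPolynomial.C ϖ⁻¹ * MvPolynomial.X (i, 0)) = _
      rw [map_mul]
      ring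
  intro P Q hPQ
  have h1 := DFunLike.congr_fun h P
  have h2 := DFunLike.congr_fun h Q
  rw [AlgHom.comp_apply, AlgHom.id_apply] at h1 h2
  rw [← h1, ← h2, hPQ]

/-- **Windows of multiples** -/
theorem window (r q s : ℕ) : ∃ E : ℕ → ℕ, PB E ∧ ∀ (δ H t : ℕ), (H + 2) ^ E δ ≤ t → ∀ a : Fin s → ℕ,
    ∀ (υ : Type) [Fintype υ] (w : υ → ℂ), Fintype.card υ = q →
    ∃ S : Finset ℕ, S.card ≤ q + s + 2 ∧ ∀ g : Fin r → ℕ, Function.Injective g →
      (∀ i, 1 ≤ g i ∧ g i ≤ H ∧ g i ∉ S ∧ ∃ n : Fin s → ℚ, Real.log (g i) = ∑ j, (n j : ℝ) * Real.log (a j)) →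
      ¬ RelK δ (cst a w) (fun p : Fin r × Fin 3 => pr ((g p.1 : ℝ) / t) p.2) := by
  classical
  obtain ⟨α, hval⟩ := vals
  obtain ⟨E₂, hE₂p, hE₂⟩ := awh_exp Evs Evs_pb (σ := Fin 3) r (q + s + 2) 1 1
  refine ⟨fun δ => 4 + E₂ (2 * δ), (PB.const 4).add (hE₂p.comp ((PB.const 2).mul PB.id)),
    fun δ H t ht a υ _ w hw => ?_⟩
  have hbig : ∀ e ≤ 4 + E₂ (2 * δ), (H + 2) ^ e ≤ t := fun e he => (Nat.pow_le_pow_right (by omega) he).trans ht
  set γ : ℝ := α + 1 / 2 * Real.log t with hγ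
  set v : Option (Fin s ⊕ υ) ⊕ Unit → ℂ := Sum.elim (cst a w) (fun _ => (γ : ℂ)) with hv
  have hvc : (Finset.univ : Finset (Option (Fin s ⊕ υ) ⊕ Unit)).card = q + s + 2 := by
    rw [Finset.card_univ, Fintype.card_sum, Fintype.card_option, Fintype.card_sum, Fintype.card_unit, Fintype.card_fin,
      hw]
    ring
  obtain ⟨S, hS, hwin⟩ := hE₂ (2 * δ) ℂ ℕ (fun t => t) (fun t g (a : Fin 3) => ((sv t g a : ℝ) : ℂ)) inp
    H t (hbig _ (by omega)) _ v Finset.univ hvc (Pool.Agent.Y916.Om.Dom.univ v)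
  refine ⟨S, hS, fun g hg hgb hrel => ?_⟩
  obtain ⟨K, hK, hKd, P, hP, hP0, hne⟩ := hrel
  choose c hc using fun i => (hgb i).2.2.2
  set Q : MvPolynomial ((Option (Fin s ⊕ υ) ⊕ Unit) ⊕ Fin r × Fin 3) K := MvPolynomial.aeval (sb K r c) P with hQ
  have hQd : Q.totalDegree ≤ 2 * δ := aeval_deg2 _ (sb_deg K r c) P hP
  set Γ : Fin r → ℂ := fun i => (γ : ℂ) - ((1 / 2 * Real.log (g i) : ℝ) : ℂ) with hΓ
  -- the values
  have hvals : ∀ i : Fin r, (KK ((g i : ℝ) / t) = Real.pi / 2 * sv t (g i) 0 ∧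
      EE ((g i : ℝ) / t) = Real.pi / 2 * sv t (g i) 1 ∧
      KK (1 - (g i : ℝ) / t) = sv t (g i) 2 + (γ - 1 / 2 * Real.log (g i)) * sv t (g i) 0) := by
    intro i
    exact hval (g i) t (hgb i).1 ((Nat.pow_le_pow_left (by have := (hgb i).2.1; omega) _).trans (hbig 4 (by omega)))
  have hΓv : ∀ (R : Type) [CommRing R] [Algebra ℂ R] (i : Fin r),
      algebraMap ℂ R (Γ i) = algebraMap ℂ R (v (Sum.inr ())) -
        ∑ j, (algebraMap K R) ((c i j / 2 : ℚ) : K) * algebraMap ℂ R (v (Sum.inl (some (Sum.inl j)))) := by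
    intro R _ _ i
    have h2 : ∀ x : ℚ, (algebraMap K R) (x : K) = algebraMap ℂ R (x : ℂ) := by
      intro x
      rw [IsScalarTower.algebraMap_apply K ℂ R, map_ratCast (algebraMap K ℂ) x]
    simp only [h2, ← map_mul, ← map_sum, ← map_sub]
    congr 1
    have h3 : Real.log (g i) = ∑ j, (c i j : ℝ) * Real.log (a j) := hc i
    show (γ : ℂ) - ((1 / 2 * Real.log (g i) : ℝ) : ℂ) = (γ : ℂ) - _
    congr 1
    rw [h3, Complex.ofReal_mul, Complex.ofReal_sum, Finset.mul_sum]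
    refine Finset.sum_congr rfl fun j _ => ?_
    have h4 : ((1 / 2 : ℝ) : ℂ) = 1 / 2 := by norm_num
    rw [Complex.ofReal_mul, h4, Complex.ofReal_ratCast]
    show _ = ((c i j / 2 : ℚ) : ℂ) * ((Real.log (a j) : ℝ) : ℂ)
    rw [Rat.cast_div, Rat.cast_ofNat]
    ring
  have hQv : ∀ (R : Type) [CommRing R] [Algebra ℂ R] (z : Fin r × Fin 3 → R),
      MvPolynomial.aeval (Sum.elim (fun j => algebraMap ℂ R (v j)) z) Q =
      MvPolynomial.aeval (Sum.elim (fun o : Option (Fin s ⊕ υ) => algebraMap ℂ R (cst a w o)) (LL Γ z)) P := by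
    intro R _ _ z
    rw [hQ, MvPolynomial.comp_aeval_apply]
    congr 1
    congr 1
    funext i
    rcases i with o | ⟨i, b⟩
    · show MvPolynomial.aeval _ (MvPolynomial.X _) = _
      rw [MvPolynomial.aeval_X]
      rfl
    · have h2 : (algebraMap K R) (1 / 2) = algebraMap ℂ R (1 / 2) := by
        rw [IsScalarTower.algebraMap_apply K ℂ R]
        congr 1
      fin_cases b
      · show MvPolynomial.aeval _ (MvPolynomial.C _ * (MvPolynomial.X _ * MvPolynomial.X _)) = _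
        rw [map_mul, map_mul, MvPolynomial.aeval_X, MvPolynomial.aeval_X, MvPolynomial.aeval_C, h2]
        show algebraMap ℂ R (1 / 2) * (algebraMap ℂ R (Real.pi : ℂ) * z (i, 0)) =
          algebraMap ℂ R ((Real.pi / 2 : ℝ) : ℂ) * z (i, 0)
        rw [← mul_assoc, ← map_mul]
        congr 2
        push_cast
        ring
      · show MvPolynomial.aeval _ (MvPolynomial.C _ * (MvPolynomial.X _ * MvPolynomial.X _)) = _
        rw [map_mul, map_mul, MvPolynomial.aeval_X, MvPolynomial.aeval_X, MvPolynomial.aeval_C, h2]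
        show algebraMap ℂ R (1 / 2) * (algebraMap ℂ R (Real.pi : ℂ) * z (i, 1)) =
          algebraMap ℂ R ((Real.pi / 2 : ℝ) : ℂ) * z (i, 1)
        rw [← mul_assoc, ← map_mul]
        congr 2
        push_cast
        ring
      · show MvPolynomial.aeval _ (MvPolynomial.X _ + (MvPolynomial.X _ -
          ∑ j, MvPolynomial.C ((c i j / 2 : ℚ) : K) * MvPolynomial.X (Sum.inl (Sum.inl (some (Sum.inl j))))) *
            MvPolynomial.X _) = z (i, 2) + algebraMap ℂ R (Γ i) * z (i, 0)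
        rw [hΓv R i, map_add, map_mul, map_sub, map_sum, MvPolynomial.aeval_X, MvPolynomial.aeval_X,
          MvPolynomial.aeval_X]
        simp only [map_mul, MvPolynomial.aeval_X, MvPolynomial.aeval_C]
        rfl
  have hx : LL Γ (fun p : Fin r × Fin 3 => ((sv t (g p.1) p.2 : ℝ) : ℂ)) =
      fun p : Fin r × Fin 3 => pr ((g p.1 : ℝ) / t) p.2 := by
    funext ⟨i, b⟩
    obtain ⟨h1, h2, h3⟩ := hvals i
    fin_cases b
    · show ((Real.pi / 2 : ℝ) : ℂ) * ((sv t (g i) 0 : ℝ) : ℂ) = (KK ((g i : ℝ) / t) : ℂ)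
      rw [h1]
      push_cast
      rfl
    · show ((Real.pi / 2 : ℝ) : ℂ) * ((sv t (g i) 1 : ℝ) : ℂ) = (EE ((g i : ℝ) / t) : ℂ)
      rw [h2]
      push_cast
      rfl
    · show ((sv t (g i) 2 : ℝ) : ℂ) + ((γ : ℂ) - ((1 / 2 * Real.log (g i) : ℝ) : ℂ)) * ((sv t (g i) 0 : ℝ) : ℂ) =
        (KK (1 - (g i : ℝ) / t) : ℂ)
      rw [h3]
      push_cast
      rfl
  have hQ0 : MvPolynomial.aeval (Sum.elim v fun p : Fin r × Fin 3 => ((sv t (g p.1) p.2 : ℝ) : ℂ)) Q = 0 := by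
    have h1 := hQv ℂ fun p : Fin r × Fin 3 => ((sv t (g p.1) p.2 : ℝ) : ℂ)
    rw [hx] at h1
    exact h1.trans hP0
  have h5 := hwin g hg (fun i => ⟨(hgb i).1, (hgb i).2.1, (hgb i).2.2.1⟩) K hK (hKd.trans (by omega))
    (fun p => ((sv t (g p.1) p.2 : ℝ) : ℂ)) (fun p => ⟨1, one_ne_zero, by simp⟩) Q hQd hQ0
  apply hne
  have h6 := hQv (MvPolynomial (Fin r × Fin 3) ℂ) MvPolynomial.X
  have h7 : (fun j => algebraMap ℂ (MvPolynomial (Fin r × Fin 3) ℂ) (v j)) = fun j => MvPolynomial.C (v j) := rfl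
  rw [h7, h5] at h6
  -- the substitution is injective
  apply LL_inj Γ
  rw [map_zero]
  have h9 : ((MvPolynomial.aeval (R := ℂ) (LL Γ (MvPolynomial.X : Fin r × Fin 3 → MvPolynomial (Fin r × Fin 3) ℂ)) :
        MvPolynomial (Fin r × Fin 3) ℂ →ₐ[ℂ] _).restrictScalars K).comp
      (MvPolynomial.aeval (Sum.elim (fun o : Option (Fin s ⊕ υ) =>
        (MvPolynomial.C (cst a w o) : MvPolynomial (Fin r × Fin 3) ℂ)) MvPolynomial.X)) =
      (MvPolynomial.aeval (Sum.elim (fun o : Option (Fin s ⊕ υ) =>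
        algebraMap ℂ (MvPolynomial (Fin r × Fin 3) ℂ) (cst a w o)) (LL Γ MvPolynomial.X)) :
          MvPolynomial (Option (Fin s ⊕ υ) ⊕ Fin r × Fin 3) K →ₐ[K] _) := by
    refine MvPolynomial.algHom_ext fun i => ?_
    rw [AlgHom.comp_apply, MvPolynomial.aeval_X, MvPolynomial.aeval_X]
    rcases i with o | ⟨i, b⟩
    · show MvPolynomial.aeval _ (MvPolynomial.C _) = _
      rw [MvPolynomial.aeval_C]
      rfl
    · show MvPolynomial.aeval _ (MvPolynomial.X (i, b)) = _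
      rw [MvPolynomial.aeval_X]
      rfl
  have h10 := DFunLike.congr_fun h9 P
  rw [AlgHom.comp_apply] at h10
  exact h10.trans h6.symm

end Pool.Agent.D0H75.LS
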